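import Pool.Agent.W715.BC.Core

set_option autoImplicit false

open Classical

namespace Pool.Agent.W715.BC

variable {A B : Type} [Fintype A] [Fintype B]

lemma YY_card_le [Nonempty B] {s q s' : ℕ} (r : A → B → Prop) (L B₀ β : ℕ) (i₀ : Fin s)
    (θ : ℝ) (w : Fin s' → B) (Pm : {i : Fin s // i ≠ i₀} → Fin q → A) :
    θ * ((YY r L B₀ β i₀ θ w Pm).card : ℝ) ≤ (Fintype.card A : ℝ) ^ q := by
  have h1 : θ * ((YY r L B₀ β i₀ θ w Pm).card : ℝ) ≤
      ∑ y ∈ YY r L B₀ β i₀ θ w Pm, (cnt r L B₀ β i₀ w Pm y : ℝ) := by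
    calc θ * ((YY r L B₀ β i₀ θ w Pm).card : ℝ) = ∑ _y ∈ YY r L B₀ β i₀ θ w Pm, θ := by
          rw [Finset.sum_const, nsmul_eq_mul, mul_comm]
      _ ≤ _ := by
          apply Finset.sum_le_sum
          intro y hy
          simp only [YY, Finset.mem_filter, Finset.mem_univ, true_and] at hy
          exact hy
  have h2 : ∑ y ∈ YY r L B₀ β i₀ θ w Pm, cnt r L B₀ β i₀ w Pm y ≤ Fintype.card (Fin q → A) := by
    calc ∑ y ∈ YY r L B₀ β i₀ θ w Pm, cnt r L B₀ β i₀ w Pm y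
        ≤ ∑ y : B, cnt r L B₀ β i₀ w Pm y :=
          Finset.sum_le_sum_of_subset (Finset.subset_univ _)
      _ = ∑ y : B, (Finset.univ.filter (fun p : Fin q → A =>
            Gd r L B₀ β i₀ w (jn i₀ p Pm) ∧ ysel r L B₀ β i₀ w (jn i₀ p Pm) = y)).card := rfl
      _ ≤ ∑ y : B, ((Finset.univ : Finset (Fin q → A)).filter (fun p : Fin q → A =>
            ysel r L B₀ β i₀ w (jn i₀ p Pm) = y)).card := by
          apply Finset.sum_le_sum
          intro y _
          apply Finset.card_le_card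
          intro p hp
          simp only [Finset.mem_filter, Finset.mem_univ, true_and] at hp ⊢
          exact hp.2
      _ = (Finset.univ : Finset (Fin q → A)).card := by
          rw [Finset.card_eq_sum_card_fiberwise (f := fun p => ysel r L B₀ β i₀ w (jn i₀ p Pm))
            (t := (Finset.univ : Finset B)) (fun _ _ => by simp)]
      _ = Fintype.card (Fin q → A) := rfl
  rw [Fintype.card_fun, Fintype.card_fin] at h2
  calc _ ≤ _ := h1
    _ = ((∑ y ∈ YY r L B₀ β i₀ θ w Pm, cnt r L B₀ β i₀ w Pm y : ℕ) : ℝ) := by push_cast; rfl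
    _ ≤ ((Fintype.card A ^ q : ℕ) : ℝ) := Nat.cast_le.mpr h2
    _ = _ := by push_cast; rfl

lemma YY_deg [Nonempty B] {s q s' : ℕ} (r : A → B → Prop) (L B₀ β : ℕ) (i₀ : Fin s)
    (θ : ℝ) (hθ : 0 < θ) (w : Fin s' → B) (Pm : {i : Fin s // i ≠ i₀} → Fin q → A) (y : B)
    (hy : y ∈ YY r L B₀ β i₀ θ w Pm) :
    B₀ ≤ β * L ^ (s - 1) * ((CC r i₀ w Pm).filter (fun c => r c y)).card ∧
    ∃ p : Fin q → A, B₀ ≤ (Ext r L w (jn i₀ p Pm)).card := by
  simp only [YY, Finset.mem_filter, Finset.mem_univ, true_and] at hy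
  have h1 : 0 < cnt r L B₀ β i₀ w Pm y := by
    have : (0 : ℝ) < (cnt r L B₀ β i₀ w Pm y : ℝ) := lt_of_lt_of_le hθ hy
    exact_mod_cast this
  unfold cnt at h1
  rw [Finset.card_pos] at h1
  obtain ⟨p, hp⟩ := h1
  simp only [Finset.mem_filter, Finset.mem_univ, true_and] at hp
  refine ⟨?_, p, hp.1.1⟩
  have h2 := ysel_spec hp.1
  rw [hp.2] at h2
  have h3 := Finset.card_le_mul_card_image (f := fun z : A × (Fin s → B) => z.1)
    ((Ext r L w (jn i₀ p Pm)).filter (fun z => z.2 i₀ = y)) (L ^ (s - 1)) (by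
      intro c _
      refine le_trans (Finset.card_le_card ?_) (ext_fib_cy r L w (jn i₀ p Pm) c i₀ y)
      intro z hz
      simp only [Finset.mem_filter] at hz ⊢
      exact ⟨hz.1.1, hz.2, hz.1.2⟩)
  have h4 : (((Ext r L w (jn i₀ p Pm)).filter (fun z => z.2 i₀ = y)).image
      (fun z : A × (Fin s → B) => z.1)).card ≤ ((CC r i₀ w Pm).filter (fun c => r c y)).card := by
    apply Finset.card_le_card
    intro c hc
    rw [Finset.mem_image] at hc
    obtain ⟨z, hz, rfl⟩ := hc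
    rw [Finset.mem_filter, mem_Ext] at hz
    obtain ⟨hz, hzy⟩ := hz
    simp only [Finset.mem_filter, CC, Finset.mem_univ, true_and]
    refine ⟨⟨hz.2.1, fun j => ⟨z.2 j.1, hz.1 j.1, fun a => ?_⟩⟩, ?_⟩
    · have := hz.2.2.1 j.1 a
      rwa [jn_ne] at this
    · rw [← hzy]; exact hz.1 i₀
  calc B₀ ≤ _ := hp.1.1
    _ ≤ _ := h2
    _ ≤ β * (L ^ (s - 1) * (((Ext r L w (jn i₀ p Pm)).filter (fun z => z.2 i₀ = y)).image
      (fun z : A × (Fin s → B) => z.1)).card) := Nat.mul_le_mul_left _ h3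
    _ ≤ β * (L ^ (s - 1) * ((CC r i₀ w Pm).filter (fun c => r c y)).card) :=
        Nat.mul_le_mul_left _ (Nat.mul_le_mul_left _ h4)
    _ = _ := by ring

set_option maxHeartbeats 4000000 in
theorem core (h_hvy : S_HVY) (h_cnt : S_CNT) (h_emb : S_EMB) : S_CORE := by
  intro s q s' t K hs hq hs' ht hK
  obtain ⟨η, hη, C1, hcnt⟩ := h_cnt s q s' K hs hq hK
  obtain ⟨C2, hhvy⟩ := h_hvy s q s' t K η hq hs' hK hη
  obtain ⟨N₀, hemb⟩ := h_emb s q s' t (1 / 2) (by norm_num)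
  set L := LL s t s' with hL
  have hL1 : 1 ≤ L := by
    have : 1 ≤ (s' + 1) ^ 2 := Nat.one_le_pow _ _ (by omega)
    simp only [hL, LL]; omega
  set β := (s + 1) * t * s with hβ
  have hβ1 : 1 ≤ β := by
    have : 0 < (s + 1) * t * s := by positivity
    omega
  set B₀ := (s + 1) * t * L ^ s + 1 + β * L ^ (s - 1) * (N₀ + 1) with hB₀
  set m2 := (s - 1) + s' + (s - 1) * q with hm2
  -- constants
  set c3 : ℝ := 1 / (8 * s * β * K ^ (m2 + 1)) with hc3
  set c6 : ℝ := 1 / (16 * s * β * K ^ q * L ^ (s - 1) * K ^ m2) with hc6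
  have hsR : (0 : ℝ) < s := by exact_mod_cast hs
  have hβR : (0 : ℝ) < β := by exact_mod_cast hβ1
  have hKR : (0 : ℝ) < K := by exact_mod_cast hK
  have hLR : (0 : ℝ) < L := by exact_mod_cast hL1
  have hc3p : 0 < c3 := by rw [hc3]; positivity
  have hc6p : 0 < c6 := by rw [hc6]; positivity
  refine ⟨max (max (max C1 C2) (4 * B₀)) (max 1 (2 * ((s * t + s' : ℕ) : ℝ) / (c6 ^ (q + 1) * c3 ^ q))), ?_⟩
  intro A B _ _ _ r D hr hD hI2 hI3 hI4
  set C := max (max (max C1 C2) (4 * (B₀ : ℝ))) (max 1 (2 * ((s * t + s' : ℕ) : ℝ) / (c6 ^ (q + 1) * c3 ^ q))) with hC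
  have hC1 : C1 ≤ C := le_trans (le_max_left _ _) (le_trans (le_max_left _ _) (le_max_left _ _))
  have hC2 : C2 ≤ C := le_trans (le_max_right _ _) (le_trans (le_max_left _ _) (le_max_left _ _))
  have hC3 : 4 * (B₀ : ℝ) ≤ C := le_trans (le_max_right _ _) (le_max_left _ _)
  have hC4 : 1 ≤ C := le_trans (le_max_left _ _) (le_max_right _ _)
  have hC5 : 2 * ((s * t + s' : ℕ) : ℝ) / (c6 ^ (q + 1) * c3 ^ q) ≤ C :=
    le_trans (le_max_right _ _) (le_max_right _ _)
  have hDp : (0 : ℝ) < D := lt_of_lt_of_le one_pos (hC4.trans hD)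
  have hDn : 0 < D := by exact_mod_cast hDp
  have hBne : Nonempty B := by
    obtain ⟨a⟩ := ‹Nonempty A›
    have h1 := hr.la a
    have h2 : 0 < deg1 r a := lt_of_lt_of_le hDn h1
    unfold deg1 at h2
    rw [Finset.card_pos] at h2
    obtain ⟨b, _⟩ := h2
    exact ⟨b⟩
  have hAp : (0 : ℝ) < Fintype.card A := by exact_mod_cast Fintype.card_pos
  by_contra hno
  -- heavy stars are few
  have hfew : (NH r q L : ℝ) < η * (Fintype.card B : ℝ) * (D : ℝ) ^ (q + 1) := by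
    by_contra hcon
    push Not at hcon
    apply hno
    apply hhvy A B r D hr (hC2.trans hD) _ hcon
    refine le_trans ?_ hI2
    apply mul_le_mul_of_nonneg_right hC2 (by positivity)
  have hΩ := hcnt A B r D L hr (hC1.trans hD) hfew
  have hidx := exists_index (q := q) (s' := s') r L B₀ ht hno (by rw [hB₀]; omega)
  -- root tuples
  have hR : (B₀ : ℝ) * (Fintype.card ((Fin s' → B) × (Fin s → Fin q → A)) : ℝ) ≤
      (1 / 4) * (Fintype.card A : ℝ) * (D : ℝ) ^ (s * q + s + s') := by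
    have h1 : (Fintype.card ((Fin s' → B) × (Fin s → Fin q → A)) : ℝ) ≤
        (Fintype.card A : ℝ) * ((Fintype.card A + Fintype.card B : ℕ) : ℝ) ^ (s * q + s' - 1) := by
      have h2 : Fintype.card ((Fin s' → B) × (Fin s → Fin q → A)) ≤
          Fintype.card A * (Fintype.card A + Fintype.card B) ^ (s * q + s' - 1) := by
        rw [Fintype.card_prod, Fintype.card_fun, Fintype.card_fun, Fintype.card_fun,
          Fintype.card_fin, Fintype.card_fin, Fintype.card_fin, ← pow_mul]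
        have h3 : q * s = (s * q - 1) + 1 := by
          have : 1 ≤ s * q := Nat.one_le_iff_ne_zero.mpr (by positivity)
          rw [mul_comm q s]; omega
        have h4 : s * q + s' - 1 = s' + (s * q - 1) := by
          have : 1 ≤ s * q := Nat.one_le_iff_ne_zero.mpr (by positivity)
          omega
        rw [h3, h4, pow_succ, pow_add]
        calc Fintype.card B ^ s' * (Fintype.card A ^ (s * q - 1) * Fintype.card A)
            = Fintype.card A * (Fintype.card B ^ s' * Fintype.card A ^ (s * q - 1)) := by ring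
          _ ≤ Fintype.card A * ((Fintype.card A + Fintype.card B) ^ s' *
              (Fintype.card A + Fintype.card B) ^ (s * q - 1)) := by
              apply Nat.mul_le_mul_left
              apply Nat.mul_le_mul
              · exact Nat.pow_le_pow_left (Nat.le_add_left _ _) _
              · exact Nat.pow_le_pow_left (Nat.le_add_right _ _) _
      exact_mod_cast h2
    have h5 : 4 * (B₀ : ℝ) * ((Fintype.card A + Fintype.card B : ℕ) : ℝ) ^ (s * q + s' - 1) ≤
        (D : ℝ) ^ (s * q + s + s') :=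
      le_trans (mul_le_mul_of_nonneg_right hC3 (by positivity)) hI4
    calc (B₀ : ℝ) * (Fintype.card ((Fin s' → B) × (Fin s → Fin q → A)) : ℝ)
        ≤ (B₀ : ℝ) * ((Fintype.card A : ℝ) *
          ((Fintype.card A + Fintype.card B : ℕ) : ℝ) ^ (s * q + s' - 1)) :=
          mul_le_mul_of_nonneg_left h1 (by positivity)
      _ = (1 / 4) * (Fintype.card A : ℝ) * (4 * (B₀ : ℝ) *
          ((Fintype.card A + Fintype.card B : ℕ) : ℝ) ^ (s * q + s' - 1)) := by ring
      _ ≤ _ := mul_le_mul_of_nonneg_left h5 (by positivity)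
  have hsum : (1 / 4) * (Fintype.card A : ℝ) * (D : ℝ) ^ (s * q + s + s') ≤
      ∑ i : Fin s, (β : ℝ) * ((EE (q := q) (s' := s') r L B₀ β i).card : ℝ) := by
    have h1 : ((Finset.univ.filter (fun z : A × (Fin s → B) × (Fin s' → B) × (Fin s → Fin q → A) =>
        Clean r L z.1 z.2.1 z.2.2.1 z.2.2.2)).card : ℝ) ≤
        (B₀ : ℝ) * (Fintype.card ((Fin s' → B) × (Fin s → Fin q → A)) : ℝ) +
        ∑ i : Fin s, (β : ℝ) * ((EE (q := q) (s' := s') r L B₀ β i).card : ℝ) := by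
      exact_mod_cast hidx
    linarith
  -- choose the index
  obtain ⟨i₀, hi₀⟩ : ∃ i₀ : Fin s, (Fintype.card A : ℝ) * (D : ℝ) ^ (s * q + s + s') ≤
      4 * s * β * ((EE (q := q) (s' := s') r L B₀ β i₀).card : ℝ) := by
    by_contra hcon
    push Not at hcon
    have hne : (Finset.univ : Finset (Fin s)).Nonempty := ⟨⟨0, hs⟩, Finset.mem_univ _⟩
    have h1 : ∑ i : Fin s, 4 * s * β * ((EE (q := q) (s' := s') r L B₀ β i).card : ℝ) <
        ∑ _i : Fin s, (Fintype.card A : ℝ) * (D : ℝ) ^ (s * q + s + s') :=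
      Finset.sum_lt_sum_of_nonempty hne (fun i _ => hcon i)
    rw [Finset.sum_const, Finset.card_univ, Fintype.card_fin, nsmul_eq_mul] at h1
    have h2 : ∑ i : Fin s, 4 * s * β * ((EE (q := q) (s' := s') r L B₀ β i).card : ℝ) =
        4 * s * ∑ i : Fin s, (β : ℝ) * ((EE (q := q) (s' := s') r L B₀ β i).card : ℝ) := by
      rw [Finset.mul_sum]
      apply Finset.sum_congr rfl
      intro i _; ring
    rw [h2] at h1
    have h3 : (4 * (s : ℝ)) * ((1 / 4) * (Fintype.card A : ℝ) * (D : ℝ) ^ (s * q + s + s')) ≤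
        (4 * (s : ℝ)) * ∑ i : Fin s, (β : ℝ) * ((EE (q := q) (s' := s') r L B₀ β i).card : ℝ) :=
      mul_le_mul_of_nonneg_left hsum (by positivity)
    nlinarith
  set θ : ℝ := c3 * (D : ℝ) ^ q with hθ
  have hθp : 0 < θ := by rw [hθ]; positivity
  have hEE := EE_le (q := q) (s' := s') r L B₀ β D K hr i₀ θ hθp.le
  have hPC := PC_le (q := q) (s' := s') r L D K hr i₀
  have hPCY := PCY_le (q := q) (s' := s') r L B₀ β i₀ θ
  have hCCs := CC_sum_le (q := q) (s' := s') r D K hr i₀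
  have hexp : s * q + s + s' = q + (m2 + 1) := by
    obtain ⟨u, rfl⟩ : ∃ u, s = u + 1 := ⟨s - 1, by omega⟩
    simp only [hm2, Nat.add_sub_cancel]
    ring
  have hexp2 : s + s' + (s - 1) * q = m2 + 1 := by
    rw [hm2]; omega
  rw [hexp2] at hPC
  -- lower bound for the sum of edges
  set SE : ℝ := ∑ R : (Fin s' → B) × ({i : Fin s // i ≠ i₀} → Fin q → A),
        (((CC r i₀ R.1 R.2 ×ˢ YY r L B₀ β i₀ θ R.1 R.2).filter (fun u => r u.1 u.2)).card : ℝ)
        with hSE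
  have h1 : ((Finset.univ.filter (fun z : A × (Fin s → B) × (Fin s' → B) ×
        ({i : Fin s // i ≠ i₀} → Fin q → A) => PC r L i₀ z)).card : ℝ) ≤
        (Fintype.card A : ℝ) * ((K : ℝ) * D) ^ (m2 + 1) := by exact_mod_cast hPC
  have h2 : ((Finset.univ.filter (fun z : A × (Fin s → B) × (Fin s' → B) ×
        ({i : Fin s // i ≠ i₀} → Fin q → A) => PC r L i₀ z ∧
          θ ≤ (cnt r L B₀ β i₀ z.2.2.1 z.2.2.2 (z.2.1 i₀) : ℝ))).card : ℝ) ≤
        (L : ℝ) ^ (s - 1) * SE := by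
    rw [hSE]
    exact_mod_cast hPCY
  have h3 : θ * ((Fintype.card A : ℝ) * ((K : ℝ) * D) ^ (m2 + 1)) * (8 * s * β) =
      (Fintype.card A : ℝ) * (D : ℝ) ^ (s * q + s + s') := by
    rw [hθ, hc3, hexp, mul_pow, pow_add (D : ℝ) q (m2 + 1)]
    field_simp
  have h4 : (Fintype.card A : ℝ) * (D : ℝ) ^ (m2 + 1) ≤
      8 * s * β * (K : ℝ) ^ q * (L : ℝ) ^ (s - 1) * SE := by
    have h5 : (Fintype.card A : ℝ) * (D : ℝ) ^ (s * q + s + s') ≤
        4 * s * β * (θ * ((Fintype.card A : ℝ) * ((K : ℝ) * D) ^ (m2 + 1)) +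
        ((K * D : ℕ) : ℝ) ^ q * ((L : ℝ) ^ (s - 1) * SE)) := by
      refine hi₀.trans ?_
      apply mul_le_mul_of_nonneg_left _ (by positivity)
      refine hEE.trans ?_
      apply add_le_add
      · exact mul_le_mul_of_nonneg_left h1 hθp.le
      · exact mul_le_mul_of_nonneg_left h2 (by positivity)
    have h6 : (Fintype.card A : ℝ) * (D : ℝ) ^ (s * q + s + s') ≤
        8 * s * β * (((K * D : ℕ) : ℝ) ^ q * ((L : ℝ) ^ (s - 1) * SE)) := by
      nlinarith
    rw [hexp, pow_add] at h6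
    push_cast at h6
    rw [mul_pow] at h6
    have h7 : (D : ℝ) ^ q * ((Fintype.card A : ℝ) * (D : ℝ) ^ (m2 + 1)) ≤
        (D : ℝ) ^ q * (8 * s * β * (K : ℝ) ^ q * (L : ℝ) ^ (s - 1) * SE) := by
      calc _ = (Fintype.card A : ℝ) * ((D : ℝ) ^ q * (D : ℝ) ^ (m2 + 1)) := by ring
        _ ≤ _ := h6
        _ = _ := by ring
    exact le_of_mul_le_mul_left h7 (by positivity)
  have h8 : ∑ R : (Fin s' → B) × ({i : Fin s // i ≠ i₀} → Fin q → A),
      (c6 * D) * ((CC r i₀ R.1 R.2).card : ℝ) < SE := by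
    rw [← Finset.mul_sum]
    have h9 : ∑ R : (Fin s' → B) × ({i : Fin s // i ≠ i₀} → Fin q → A),
        ((CC r i₀ R.1 R.2).card : ℝ) ≤ (Fintype.card A : ℝ) * ((K : ℝ) * D) ^ m2 := by
      exact_mod_cast hCCs
    have h10 : (c6 * D) * ((Fintype.card A : ℝ) * ((K : ℝ) * D) ^ m2) *
        (16 * s * β * (K : ℝ) ^ q * (L : ℝ) ^ (s - 1)) = (Fintype.card A : ℝ) * (D : ℝ) ^ (m2 + 1) := by
      rw [hc6, mul_pow, pow_succ]
      field_simp
    have h11 : 0 < (Fintype.card A : ℝ) * (D : ℝ) ^ (m2 + 1) := by positivity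
    have hX : 0 < 8 * (s : ℝ) * β * (K : ℝ) ^ q * (L : ℝ) ^ (s - 1) := by positivity
    have h12 : (c6 * D) * ((Fintype.card A : ℝ) * ((K : ℝ) * D) ^ m2) *
        (8 * s * β * (K : ℝ) ^ q * (L : ℝ) ^ (s - 1)) <
        8 * s * β * (K : ℝ) ^ q * (L : ℝ) ^ (s - 1) * SE := by
      nlinarith
    have h13 : (c6 * D) * ((Fintype.card A : ℝ) * ((K : ℝ) * D) ^ m2) < SE := by
      by_contra hcon
      push Not at hcon
      have := mul_le_mul_of_nonneg_left hcon hX.le
      nlinarith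
    refine lt_of_le_of_lt ?_ h13
    exact mul_le_mul_of_nonneg_left h9 (by positivity)
  rw [hSE] at h8
  obtain ⟨R, _, hRR⟩ := Finset.exists_lt_of_sum_lt h8
  -- the chosen pair
  have hYYne : (YY r L B₀ β i₀ θ R.1 R.2).Nonempty := by
    by_contra hcon
    rw [Finset.not_nonempty_iff_eq_empty] at hcon
    rw [hcon] at hRR
    simp only [Finset.product_empty, Finset.filter_empty, Finset.card_empty, Nat.cast_zero] at hRR
    have : 0 ≤ c6 * D * ((CC r i₀ R.1 R.2).card : ℝ) := by positivity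
    linarith
  obtain ⟨y₁, hy₁⟩ := hYYne
  obtain ⟨_, p₁, hp₁⟩ := YY_deg r L B₀ β i₀ θ hθp R.1 R.2 y₁ hy₁
  have hwinj : Function.Injective R.1 := by
    have : 0 < (Ext r L R.1 (jn i₀ p₁ R.2)).card := lt_of_lt_of_le (by rw [hB₀]; omega) hp₁
    rw [Finset.card_pos] at this
    obtain ⟨z, hz⟩ := this
    exact (mem_Ext.mp hz).2.2.2.2.2.1
  apply hno
  apply final_step s q s' t N₀ hemb r (CC r i₀ R.1 R.2) (YY r L B₀ β i₀ θ R.1 R.2) R.1 hwinj
    (fun c hc l => (Finset.mem_filter.mp hc).2.1 l)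
    (fun y hy => by
      obtain ⟨h, _⟩ := YY_deg r L B₀ β i₀ θ hθp R.1 R.2 y hy
      by_contra hcon
      push Not at hcon
      have h1 : β * L ^ (s - 1) * ((CC r i₀ R.1 R.2).filter (fun c => r c y)).card ≤
          β * L ^ (s - 1) * (N₀ + 1) := Nat.mul_le_mul_left _ (by omega)
      rw [hB₀] at h
      omega)
    (c6 * D) θ ((Fintype.card A : ℝ) ^ q) (by positivity) hθp hRR
    (YY_card_le r L B₀ β i₀ θ R.1 R.2)
  -- numerical inequality
  have h14 : 2 * ((s * t + s' : ℕ) : ℝ) ≤ C * (c6 ^ (q + 1) * c3 ^ q) := by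
    rwa [div_le_iff₀ (by positivity)] at hC5
  have h15 : ((Fintype.card A : ℝ) ^ q) ^ q ≤
      ((Fintype.card A + Fintype.card B : ℕ) : ℝ) ^ (q ^ 2) := by
    rw [← pow_mul, ← sq]
    apply pow_le_pow_left₀ (by positivity)
    push_cast
    have : (0 : ℝ) ≤ Fintype.card B := Nat.cast_nonneg _
    linarith
  calc 2 * ((s * t + s' : ℕ) : ℝ) * ((Fintype.card A : ℝ) ^ q) ^ q
      ≤ (C * (c6 ^ (q + 1) * c3 ^ q)) *
        ((Fintype.card A + Fintype.card B : ℕ) : ℝ) ^ (q ^ 2) := by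
        apply mul_le_mul h14 h15 (by positivity) (by positivity)
    _ = (c6 ^ (q + 1) * c3 ^ q) * (C * ((Fintype.card A + Fintype.card B : ℕ) : ℝ) ^ (q ^ 2)) := by
        ring
    _ ≤ (c6 ^ (q + 1) * c3 ^ q) * (D : ℝ) ^ (q ^ 2 + q + 1) :=
        mul_le_mul_of_nonneg_left hI3 (by positivity)
    _ = (c6 * D) ^ (q + 1) * θ ^ q := by
        rw [hθ]; ring

end Pool.Agent.W715.BC
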