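import Mathlib

set_option autoImplicit false

open Classical

namespace Pool.Agent.W715.BC

/-- number of elements of B related to a -/
noncomputable def deg1 {A B : Type} [Fintype B] (r : A → B → Prop) (a : A) : ℕ :=
  (Finset.univ.filter (fun b : B => r a b)).card

/-- number of elements of A related to b -/
noncomputable def deg2 {A B : Type} [Fintype A] (r : A → B → Prop) (b : B) : ℕ :=
  (Finset.univ.filter (fun a : A => r a b)).card

/-- number of elements of B related to all entries of the tuple Q -/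
noncomputable def codeg {A B : Type} [Fintype B] (r : A → B → Prop) {k : ℕ} (Q : Fin k → A) : ℕ :=
  (Finset.univ.filter (fun b : B => ∀ i, r (Q i) b)).card

/-- almost regular bipartite graph: all degrees between D and K D -/
structure Reg {A B : Type} [Fintype A] [Fintype B] (r : A → B → Prop) (D K : ℕ) : Prop where
  la : ∀ a, D ≤ deg1 r a
  ua : ∀ a, deg1 r a ≤ K * D
  lb : ∀ b, D ≤ deg2 r b
  ub : ∀ b, deg2 r b ≤ K * D

/-- the bipartite graph r contains the t-blowup of the tree with centre c in A -/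
def Blow {A B : Type} (r : A → B → Prop) (s q s' t : ℕ) : Prop :=
  ∃ (c : Fin t → A) (x : Fin s → Fin t → B) (P : Fin s → Fin q → A) (w : Fin s' → B),
    Function.Injective c ∧ Function.Injective (fun p : Fin s × Fin t => x p.1 p.2) ∧
    Function.Injective (fun p : Fin s × Fin q => P p.1 p.2) ∧ Function.Injective w ∧
    (∀ j i a, c j ≠ P i a) ∧ (∀ i j l, x i j ≠ w l) ∧
    (∀ i j, r (c j) (x i j)) ∧ (∀ j l, r (c j) (w l)) ∧ (∀ i j a, r (P i a) (x i j))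

/-- a good embedding of one copy of the tree: centre c, children x, root neighbours w of the centre,
root neighbours P i of x i; all vertices distinct, and no (c, P i) has L or more common neighbours -/
def Clean {A B : Type} [Fintype B] {s q s' : ℕ} (r : A → B → Prop) (L : ℕ) (c : A) (x : Fin s → B)
    (w : Fin s' → B) (P : Fin s → Fin q → A) : Prop :=
  (∀ i, r c (x i)) ∧ (∀ l, r c (w l)) ∧ (∀ i a, r (P i a) (x i)) ∧
  (∀ i, codeg r (Fin.cons c (P i) : Fin (q + 1) → A) < L) ∧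
  Function.Injective x ∧ Function.Injective w ∧ (∀ i l, x i ≠ w l) ∧
  Function.Injective (fun p : Fin s × Fin q => P p.1 p.2) ∧ (∀ i a, c ≠ P i a)

/-- number of (q+1)-stars centred in B whose leaf tuple has at least L common neighbours -/
noncomputable def NH {A B : Type} [Fintype A] [Fintype B] (r : A → B → Prop) (q L : ℕ) : ℕ :=
  (Finset.univ.filter (fun z : B × (Fin (q + 1) → A) =>
    (∀ i, r (z.2 i) z.1) ∧ L ≤ codeg r z.2)).card

/-- threshold for heavy tuples -/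
def LL (s t s' : ℕ) : ℕ := s * t + s' + 4 * (s' + 1) ^ 2

/-- KST for k-uniform hypergraphs -/
def S_KST : Prop := ∀ (k l : ℕ) (η : ℝ), 0 < η → ∃ N₀ : ℕ, ∀ (Y : Type) [Fintype Y]
    (H : Finset (Fin k → Y)), N₀ ≤ Fintype.card Y →
    η * (Fintype.card Y : ℝ) ^ k ≤ (H.card : ℝ) →
    ∃ g : Fin k → Fin l → Y, (∀ i, Function.Injective (g i)) ∧
      ∀ j : Fin k → Fin l, (fun i => g i (j i)) ∈ H

/-- embedding into a set with many heavy tuples -/
def S_EMB : Prop := ∀ (s q s' t : ℕ) (η : ℝ), 0 < η → ∃ N₀ : ℕ, ∀ (A B : Type) [Fintype A]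
    [Fintype B] (r : A → B → Prop) (Y : Finset A) (w : Fin s' → B),
    Function.Injective w → (∀ y ∈ Y, ∀ l, r y (w l)) → N₀ ≤ Y.card →
    η * (Y.card : ℝ) ^ (q + 1) ≤ ((Finset.univ.filter (fun Q : Fin (q + 1) → A =>
      (∀ i, Q i ∈ Y) ∧ s * t + s' ≤ codeg r Q)).card : ℝ) →
    Blow r s q s' t

/-- heavy stars are few, or there is a blowup -/
def S_HVY : Prop := ∀ (s q s' t K : ℕ) (η : ℝ), 1 ≤ q → s' ≤ q → 0 < K → 0 < η → ∃ C : ℝ,
    ∀ (A B : Type) [Fintype A] [Fintype B] [Nonempty A] (r : A → B → Prop) (D : ℕ),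
    Reg r D K → C ≤ (D : ℝ) →
    C * ((Fintype.card A + Fintype.card B : ℕ) : ℝ) ^ (max s' 1 - 1) ≤ (D : ℝ) ^ (max s' 1) →
    η * (Fintype.card B : ℝ) * (D : ℝ) ^ (q + 1) ≤ (NH r q (LL s t s') : ℝ) →
    Blow r s q s' t

/-- many clean embeddings -/
def S_CNT : Prop := ∀ (s q s' K : ℕ), 1 ≤ s → 1 ≤ q → 0 < K → ∃ η : ℝ, 0 < η ∧ ∃ C : ℝ,
    ∀ (A B : Type) [Fintype A] [Fintype B] [Nonempty A] (r : A → B → Prop) (D L : ℕ),
    Reg r D K → C ≤ (D : ℝ) →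
    (NH r q L : ℝ) < η * (Fintype.card B : ℝ) * (D : ℝ) ^ (q + 1) →
    (1 / 2 : ℝ) * (Fintype.card A : ℝ) * (D : ℝ) ^ (s * q + s + s') ≤
      ((Finset.univ.filter (fun z : A × (Fin s → B) × (Fin s' → B) × (Fin s → Fin q → A) =>
        Clean r L z.1 z.2.1 z.2.2.1 z.2.2.2)).card : ℝ)

/-- the core theorem -/
def S_CORE : Prop := ∀ (s q s' t K : ℕ), 1 ≤ s → 1 ≤ q → s' ≤ q → 0 < t → 0 < K → ∃ C : ℝ,
    ∀ (A B : Type) [Fintype A] [Fintype B] [Nonempty A] (r : A → B → Prop) (D : ℕ),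
    Reg r D K → C ≤ (D : ℝ) →
    C * ((Fintype.card A + Fintype.card B : ℕ) : ℝ) ^ (max s' 1 - 1) ≤ (D : ℝ) ^ (max s' 1) →
    C * ((Fintype.card A + Fintype.card B : ℕ) : ℝ) ^ (q ^ 2) ≤ (D : ℝ) ^ (q ^ 2 + q + 1) →
    C * ((Fintype.card A + Fintype.card B : ℕ) : ℝ) ^ (s * q + s' - 1) ≤
      (D : ℝ) ^ (s * q + s + s') →
    Blow r s q s' t

/-- regularisation: dense graphs contain dense almost regular bipartite graphs -/
def S_REG : Prop := ∀ ε : ℝ, 0 < ε → ε < 1 → ∃ K : ℕ, 0 < K ∧ ∀ C : ℝ, ∃ C' : ℝ,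
    ∀ (n : ℕ) (G : SimpleGraph (Fin n)), C' * (n : ℝ) ^ (1 + ε) < (G.edgeSet.ncard : ℝ) →
    ∃ (U W : Finset (Fin n)) (D : ℕ), Disjoint U W ∧ U.Nonempty ∧ W.Nonempty ∧
      C * ((U.card + W.card : ℕ) : ℝ) ^ ε ≤ (D : ℝ) ∧
      (∀ u ∈ U, D ≤ (W.filter (fun w => G.Adj u w)).card ∧
        (W.filter (fun w => G.Adj u w)).card ≤ K * D) ∧
      (∀ w ∈ W, D ≤ (U.filter (fun u => G.Adj u w)).card ∧
        (U.filter (fun u => G.Adj u w)).card ≤ K * D)

/-- a copy of the t-blowup inside a graph, all vertices distinct -/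
def GBlow {W : Type} (G : SimpleGraph W) (s q s' t : ℕ) : Prop :=
  ∃ (c : Fin t → W) (x : Fin s → Fin t → W) (P : Fin s → Fin q → W) (w : Fin s' → W),
    Function.Injective c ∧ Function.Injective (fun p : Fin s × Fin t => x p.1 p.2) ∧
    Function.Injective (fun p : Fin s × Fin q => P p.1 p.2) ∧ Function.Injective w ∧
    (∀ j i k, c j ≠ x i k) ∧ (∀ j i a, c j ≠ P i a) ∧ (∀ j l, c j ≠ w l) ∧
    (∀ i j k a, x i j ≠ P k a) ∧ (∀ i j l, x i j ≠ w l) ∧ (∀ i a l, P i a ≠ w l) ∧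
    (∀ i j, G.Adj (c j) (x i j)) ∧ (∀ j l, G.Adj (c j) (w l)) ∧ (∀ i j a, G.Adj (P i a) (x i j))

/-- a labelling of a rooted tree as centre c, children x, leaves P i of x i, leaves w of c -/
def Lab {V : Type} (T : SimpleGraph V) (R : Set V) (s q s' : ℕ) : Prop :=
  ∃ (c : V) (x : Fin s → V) (P : Fin s → Fin q → V) (w : Fin s' → V),
    c ∉ R ∧ (∀ i, x i ∉ R) ∧ (∀ i a, P i a ∈ R) ∧ (∀ l, w l ∈ R) ∧
    Function.Injective x ∧ (∀ i, x i ≠ c) ∧
    Function.Injective (fun p : Fin s × Fin q => P p.1 p.2) ∧ Function.Injective w ∧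
    (∀ i a l, P i a ≠ w l) ∧
    (∀ v, v = c ∨ (∃ i, v = x i) ∨ (∃ i a, v = P i a) ∨ ∃ l, v = w l) ∧
    (∀ u v, T.Adj u v →
      (∃ i, (u = c ∧ v = x i) ∨ (v = c ∧ u = x i)) ∨
      (∃ i a, (u = x i ∧ v = P i a) ∨ (v = x i ∧ u = P i a)) ∨
      (∃ l, (u = c ∧ v = w l) ∨ (v = c ∧ u = w l)))

/-- number of root neighbours of v -/
noncomputable def rdeg {V : Type} (T : SimpleGraph V) (R : Set V) (v : V) : ℕ :=
  ({u | u ∈ R ∧ T.Adj v u} : Set V).ncard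

/-- density of a rooted tree -/
noncomputable def dens {V : Type} (T : SimpleGraph V) (S : Set V) : ℝ :=
  (({e | e ∈ T.edgeSet ∧ ∃ v ∈ S, v ∈ e} : Set (Sym2 V)).ncard : ℝ) / (S.ncard : ℝ)

/-- balanced star-type trees: the number of root neighbours of a child -/
def S_TR1 : Prop := ∀ (V : Type) [Fintype V] (T : SimpleGraph V) (R : Set V),
    T.IsTree → (∀ u ∈ R, ∀ v ∈ R, ¬ T.Adj u v) →
    (∀ S : Set V, S.Nonempty → S ⊆ Rᶜ → dens T Rᶜ ≤ dens T S) →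
    ∀ c ∈ Rᶜ, (∀ v ∈ Rᶜ, v ≠ c → T.Adj c v) →
    ∀ v ∈ Rᶜ, v ≠ c → dens T Rᶜ - 1 ≤ (rdeg T R v : ℝ) ∧ (rdeg T R v : ℝ) ≤ dens T Rᶜ

/-- star-type trees in which all children have q root neighbours -/
def S_TR2 : Prop := ∀ (V : Type) [Fintype V] (T : SimpleGraph V) (R : Set V),
    T.IsTree → (∀ u ∈ R, ∀ v ∈ R, ¬ T.Adj u v) →
    ∀ c ∈ Rᶜ, (∀ v ∈ Rᶜ, v ≠ c → T.Adj c v) →
    ∀ q : ℕ, (∀ v ∈ Rᶜ, v ≠ c → rdeg T R v = q) →
    ∃ s s' : ℕ, Lab T R s q s' ∧ s + 1 = Rᶜ.ncard ∧ s' = rdeg T R c ∧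
      dens T Rᶜ * (s + 1) = s * (q + 1) + s'

/-- from a labelled tree and a blowup to a copy in the sense of the frozen statement -/
def S_TR3 : Prop := ∀ (V : Type) [Fintype V] (T : SimpleGraph V) (R : Set V) (s q s' : ℕ),
    Lab T R s q s' → ∀ (t n : ℕ) (G : SimpleGraph (Fin n)), GBlow G s q s' t →
    ∃ f : {p : V × ℕ // p.2 < t ∧ (p.1 ∈ R → p.2 = 0)} → Fin n,
      Function.Injective f ∧
      ∀ a b : {p : V × ℕ // p.2 < t ∧ (p.1 ∈ R → p.2 = 0)},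
        (SimpleGraph.fromRel
          (fun a b : {p : V × ℕ // p.2 < t ∧ (p.1 ∈ R → p.2 = 0)} =>
            T.Adj a.1.1 b.1.1 ∧ (a.1.2 = b.1.2 ∨ a.1.1 ∈ R ∨ b.1.1 ∈ R))).Adj a b →
        G.Adj (f a) (f b)

end Pool.Agent.W715.BC
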