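import Pool.Agent.W715.BC.Defs

set_option autoImplicit false

open Classical

namespace Pool.Agent.W715.BC.K150

open Pool.Agent.W715.BC

/-- few maps are not injective -/
theorem card_notInj (Y : Type) [Fintype Y] (l : ℕ) :
    ((Finset.univ.filter (fun z : Fin l → Y => ¬ Function.Injective z)).card) ≤
      l ^ 2 * (Fintype.card Y) ^ (l - 1) := by
  have hsub : (Finset.univ.filter (fun z : Fin l → Y => ¬ Function.Injective z)) ⊆
      ((Finset.univ : Finset (Fin l × Fin l)).filter (fun p => p.1 ≠ p.2)).biUnion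
        (fun p => Finset.univ.filter (fun z : Fin l → Y => z p.1 = z p.2)) := by
    intro z hz
    simp only [Finset.mem_filter, Finset.mem_univ, true_and, Function.Injective, not_forall] at hz
    obtain ⟨i, j, hij, hne⟩ := hz
    simp only [Finset.mem_biUnion, Finset.mem_filter, Finset.mem_univ, true_and, Prod.exists]
    exact ⟨i, j, hne, hij⟩
  refine (Finset.card_le_card hsub).trans ?_
  have hc : (((Finset.univ : Finset (Fin l × Fin l)).filter (fun p => p.1 ≠ p.2)).card) ≤ l ^ 2 := by
    refine (Finset.card_le_univ _).trans ?_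
    simp [sq]
  refine (Finset.card_biUnion_le_card_mul _ _ ((Fintype.card Y) ^ (l - 1)) ?_).trans
    (Nat.mul_le_mul_right _ hc)
  rintro ⟨i, j⟩ hp
  simp only [Finset.mem_filter, Finset.mem_univ, true_and] at hp
  have hcard : Fintype.card ({a : Fin l // a ≠ i} → Y) = (Fintype.card Y) ^ (l - 1) := by
    rw [Fintype.card_fun]
    congr 1
    simp [Fintype.card_subtype_compl]
  rw [← hcard, ← Finset.card_univ]
  refine Finset.card_le_card_of_injOn (fun z a => z a.1) (fun _ _ => Finset.mem_univ _) ?_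
  intro z hz z' hz' h
  simp only [Finset.coe_filter, Finset.mem_univ, true_and, Set.mem_ofPred_eq] at hz hz'
  have key : ∀ a, a ≠ i → z a = z' a := fun a ha => congrFun h ⟨a, ha⟩
  funext a
  by_cases ha : a = i
  · subst ha
    rw [hz, hz']
    exact key j (fun h => hp h.symm)
  · exact key a ha

theorem kst : S_KST := by
  intro k
  induction k with
  | zero =>
    intro l η hη
    refine ⟨0, fun Y _ H _ hH => ?_⟩
    have h1 : (0:ℝ) < (H.card : ℝ) := lt_of_lt_of_le (by simpa using hη) hH
    obtain ⟨x, hx⟩ := Finset.card_pos.mp (by exact_mod_cast h1)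
    refine ⟨fun i => Fin.elim0 i, fun i => Fin.elim0 i, fun j => ?_⟩
    have hxe : (fun i : Fin 0 => (Fin.elim0 i : Fin l → Y) (j i)) = x := funext (fun i => i.elim0)
    rw [hxe]
    exact hx
  | succ k ih =>
    intro l η hη
    rcases Nat.eq_zero_or_pos l with hl | hl
    · subst hl
      exact ⟨0, fun Y _ H _ _ => ⟨fun _ i => Fin.elim0 i, fun _ i => Fin.elim0 i,
        fun j => Fin.elim0 (j 0)⟩⟩
    obtain ⟨m, rfl⟩ : ∃ m, l = m + 1 := ⟨l - 1, by omega⟩
    obtain ⟨N1, hN1⟩ := ih (m + 1) (η ^ (m + 1) / 2) (by positivity)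
    obtain ⟨N2, hN2⟩ := exists_nat_ge (2 * ((m:ℝ) + 1) ^ 2 / η ^ (m + 1))
    refine ⟨max N1 (N2 + 1), fun Y _ H hY hH => ?_⟩
    set n : ℕ := Fintype.card Y with hn
    have hn1 : N1 ≤ n := (le_max_left _ _).trans hY
    have hn2 : N2 + 1 ≤ n := (le_max_right _ _).trans hY
    have hnpos : 0 < n := by omega
    have hnR : (0:ℝ) < (n:ℝ) := by exact_mod_cast hnpos
    -- sections
    let Hy : (Fin k → Y) → Finset Y := fun y => Finset.univ.filter
      (fun z : Y => (Fin.cons z y : Fin (k + 1) → Y) ∈ H)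
    have hsum : ∑ y : Fin k → Y, (Hy y).card = H.card := by
      rw [Finset.card_eq_sum_card_fiberwise (f := fun a : Fin (k+1) → Y => Fin.tail a)
        (s := H) (t := Finset.univ) (fun _ _ => Finset.mem_univ _)]
      refine Finset.sum_congr rfl fun y _ => ?_
      refine Finset.card_bij (fun z _ => (Fin.cons z y : Fin (k + 1) → Y)) ?_ ?_ ?_
      · intro z hz
        simp only [Hy, Finset.mem_filter, Finset.mem_univ, true_and] at hz
        simp only [Finset.mem_filter]
        exact ⟨hz, Fin.tail_cons _ _⟩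
      · intro z _ z' _ h
        have := congrFun h 0
        simpa using this
      · intro b hb
        simp only [Finset.mem_filter] at hb
        refine ⟨b 0, ?_, ?_⟩
        · simp only [Hy, Finset.mem_filter, Finset.mem_univ, true_and]
          rw [← hb.2, Fin.cons_self_tail]
          exact hb.1
        · rw [← hb.2, Fin.cons_self_tail]
    -- convexity
    have hconv : η ^ (m + 1) * (n:ℝ) ^ (k + (m + 1)) ≤
        ∑ y : Fin k → Y, ((Hy y).card : ℝ) ^ (m + 1) := by
      have h1 := pow_sum_div_card_le_sum_pow (s := (Finset.univ : Finset (Fin k → Y)))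
        (f := fun y => ((Hy y).card : ℝ)) (fun _ _ => Nat.cast_nonneg _) m
      refine le_trans ?_ h1
      rw [← Nat.cast_sum, hsum, Finset.card_univ, Fintype.card_fun, Fintype.card_fin, ← hn]
      rw [le_div_iff₀ (by push_cast; positivity)]
      calc η ^ (m + 1) * (n:ℝ) ^ (k + (m + 1)) * (((n ^ k : ℕ) : ℝ)) ^ m
          = (η * (n:ℝ) ^ (k + 1)) ^ (m + 1) := by push_cast; ring
        _ ≤ (H.card : ℝ) ^ (m + 1) := pow_le_pow_left₀ (by positivity) hH _
    -- all pairs
    have hpi : ∀ y : Fin k → Y, ((Finset.univ.filter (fun z : Fin (m + 1) → Y =>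
        ∀ i, z i ∈ Hy y)).card : ℝ) = ((Hy y).card : ℝ) ^ (m + 1) := by
      intro y
      have : (Finset.univ.filter (fun z : Fin (m + 1) → Y => ∀ i, z i ∈ Hy y)) =
          Fintype.piFinset (fun _ : Fin (m + 1) => Hy y) := by
        ext z
        simp [Fintype.mem_piFinset]
      rw [this, Fintype.card_piFinset_const]
      push_cast
      rfl
    -- injective ones
    have hinj : ∀ y : Fin k → Y, ((Hy y).card : ℝ) ^ (m + 1) -
        ((m:ℝ) + 1) ^ 2 * (n:ℝ) ^ m ≤
        ((Finset.univ.filter (fun z : Fin (m + 1) → Y =>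
          Function.Injective z ∧ ∀ i, z i ∈ Hy y)).card : ℝ) := by
      intro y
      rw [← hpi y]
      have h1 : (Finset.univ.filter (fun z : Fin (m + 1) → Y => ∀ i, z i ∈ Hy y)).card ≤
          (Finset.univ.filter (fun z : Fin (m + 1) → Y =>
            Function.Injective z ∧ ∀ i, z i ∈ Hy y)).card +
          (Finset.univ.filter (fun z : Fin (m + 1) → Y => ¬ Function.Injective z)).card := by
        refine (Finset.card_le_card ?_).trans (Finset.card_union_le _ _)
        intro z hz
        simp only [Finset.mem_filter, Finset.mem_univ, true_and, Finset.mem_union] at hz ⊢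
        by_cases h : Function.Injective z
        · exact Or.inl ⟨h, hz⟩
        · exact Or.inr h
      have h2 := card_notInj Y (m + 1)
      rw [Nat.add_sub_cancel, ← hn] at h2
      have h3 : ((Finset.univ.filter (fun z : Fin (m + 1) → Y => ∀ i, z i ∈ Hy y)).card : ℝ) ≤
          ((Finset.univ.filter (fun z : Fin (m + 1) → Y =>
            Function.Injective z ∧ ∀ i, z i ∈ Hy y)).card : ℝ) + ((m:ℝ) + 1) ^ 2 * (n:ℝ) ^ m := by
        have : (Finset.univ.filter (fun z : Fin (m + 1) → Y => ∀ i, z i ∈ Hy y)).card ≤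
          (Finset.univ.filter (fun z : Fin (m + 1) → Y =>
            Function.Injective z ∧ ∀ i, z i ∈ Hy y)).card + (m + 1) ^ 2 * n ^ m :=
          h1.trans (Nat.add_le_add_left h2 _)
        exact_mod_cast this
      linarith
    have htot : (η ^ (m + 1) / 2) * (n:ℝ) ^ (k + (m + 1)) ≤
        ∑ y : Fin k → Y, ((Finset.univ.filter (fun z : Fin (m + 1) → Y =>
          Function.Injective z ∧ ∀ i, z i ∈ Hy y)).card : ℝ) := by
      have h1 := Finset.sum_le_sum (s := (Finset.univ : Finset (Fin k → Y)))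
        (fun y _ => hinj y)
      refine le_trans ?_ h1
      rw [Finset.sum_sub_distrib, Finset.sum_const, Finset.card_univ, Fintype.card_fun,
        Fintype.card_fin, ← hn, nsmul_eq_mul]
      have h2 : ((n ^ k : ℕ) : ℝ) * (((m:ℝ) + 1) ^ 2 * (n:ℝ) ^ m) ≤
          (η ^ (m + 1) / 2) * (n:ℝ) ^ (k + (m + 1)) := by
        have h3 : 2 * ((m:ℝ) + 1) ^ 2 ≤ η ^ (m + 1) * (n:ℝ) := by
          have h4 : 2 * ((m:ℝ) + 1) ^ 2 / η ^ (m + 1) ≤ (n:ℝ) :=
            hN2.trans (by exact_mod_cast (by omega : N2 ≤ n))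
          rw [div_le_iff₀ (by positivity)] at h4
          linarith
        have h5 : ((m:ℝ) + 1) ^ 2 ≤ η ^ (m + 1) / 2 * (n:ℝ) := by linarith
        calc ((n ^ k : ℕ) : ℝ) * (((m:ℝ) + 1) ^ 2 * (n:ℝ) ^ m)
            = ((n:ℝ) ^ k * (n:ℝ) ^ m) * ((m:ℝ) + 1) ^ 2 := by push_cast; ring
          _ ≤ ((n:ℝ) ^ k * (n:ℝ) ^ m) * (η ^ (m + 1) / 2 * (n:ℝ)) :=
              mul_le_mul_of_nonneg_left h5 (by positivity)
          _ = (η ^ (m + 1) / 2) * (n:ℝ) ^ (k + (m + 1)) := by ring
      linarith
    -- swap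
    have hswap : ∑ y : Fin k → Y, ((Finset.univ.filter (fun z : Fin (m + 1) → Y =>
          Function.Injective z ∧ ∀ i, z i ∈ Hy y)).card : ℝ) =
        ∑ z : Fin (m + 1) → Y, ((Finset.univ.filter (fun y : Fin k → Y =>
          Function.Injective z ∧ ∀ i, z i ∈ Hy y)).card : ℝ) := by
      have h1 : ∀ y : Fin k → Y, ((Finset.univ.filter (fun z : Fin (m + 1) → Y =>
          Function.Injective z ∧ ∀ i, z i ∈ Hy y)).card : ℝ) =
          ∑ z : Fin (m + 1) → Y, if (Function.Injective z ∧ ∀ i, z i ∈ Hy y) then (1:ℝ) else 0 := by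
        intro y
        rw [Finset.sum_boole]
      have h2 : ∀ z : Fin (m + 1) → Y, ((Finset.univ.filter (fun y : Fin k → Y =>
          Function.Injective z ∧ ∀ i, z i ∈ Hy y)).card : ℝ) =
          ∑ y : Fin k → Y, if (Function.Injective z ∧ ∀ i, z i ∈ Hy y) then (1:ℝ) else 0 := by
        intro z
        rw [Finset.sum_boole]
      simp_rw [h1, h2]
      exact Finset.sum_comm
    rw [hswap] at htot
    have : Nonempty Y := Fintype.card_pos_iff.mp (by rw [← hn]; exact hnpos)
    obtain ⟨z0, hz0⟩ : ∃ z : Fin (m + 1) → Y, (η ^ (m + 1) / 2) * (n:ℝ) ^ k ≤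
        ((Finset.univ.filter (fun y : Fin k → Y =>
          Function.Injective z ∧ ∀ i, z i ∈ Hy y)).card : ℝ) := by
      by_contra hcon
      push Not at hcon
      have h1 := Finset.sum_lt_sum_of_nonempty (s := (Finset.univ : Finset (Fin (m + 1) → Y)))
        Finset.univ_nonempty (fun z _ => hcon z)
      rw [Finset.sum_const, Finset.card_univ, Fintype.card_fun, Fintype.card_fin, ← hn,
        nsmul_eq_mul] at h1
      have h2 : ((n ^ (m + 1) : ℕ) : ℝ) * (η ^ (m + 1) / 2 * (n:ℝ) ^ k) =
          (η ^ (m + 1) / 2) * (n:ℝ) ^ (k + (m + 1)) := by push_cast; ring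
      linarith
    have hz0inj : Function.Injective z0 := by
      by_contra hni
      have : (Finset.univ.filter (fun y : Fin k → Y =>
          Function.Injective z0 ∧ ∀ i, z0 i ∈ Hy y)) = ∅ := by
        rw [Finset.filter_eq_empty_iff]
        intro y _ h
        exact hni h.1
      rw [this, Finset.card_empty, Nat.cast_zero] at hz0
      have : 0 < (η ^ (m + 1) / 2) * (n:ℝ) ^ k := by positivity
      linarith
    obtain ⟨g', hg', hg'2⟩ := hN1 Y _ hn1 hz0
    refine ⟨Fin.cons z0 g', ?_, ?_⟩
    · intro i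
      refine Fin.cases ?_ (fun i => ?_) i
      · simpa using hz0inj
      · simpa using hg' i
    · intro j
      have h1 := hg'2 (fun i => j i.succ)
      simp only [Finset.mem_filter, Finset.mem_univ, true_and, Hy] at h1
      have h2 := h1.2 (j 0)
      convert h2 using 1
      funext i
      refine Fin.cases ?_ (fun i => ?_) i
      · simp
      · simp

end Pool.Agent.W715.BC.K150
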