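import Pool.Agent.W715.BC.Core2
import Pool.Agent.W715.BC.Kst
import Pool.Agent.W902.BC_Emb
import Pool.Agent.W370.BC_HVY
import Pool.Agent.W704.BC.Cnt
import Pool.Agent.W247.BC.REG
import Pool.Agent.W237.BC_TR1
import Pool.Agent.W389.BC_TR2
import Pool.Agent.W389.BC_TR3

set_option autoImplicit false

open Classical

namespace Pool.Agent.W715.BC

theorem core_holds : S_CORE :=
  core (Pool.Agent.W370.BC.BC_HVY (Pool.Agent.W902.BCEmb.emb Pool.Agent.W715.BC.K150.kst))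
    Pool.Agent.W704.BC.cntMain (Pool.Agent.W902.BCEmb.emb Pool.Agent.W715.BC.K150.kst)

/-- from a blowup between two disjoint sets to a blowup in the graph -/
lemma gblow_of_blow {n : ℕ} (G : SimpleGraph (Fin n)) (U W : Finset (Fin n)) (hUW : Disjoint U W)
    (s q s' t : ℕ) (h : Blow (fun (u : U) (w : W) => G.Adj u.1 w.1) s q s' t) :
    GBlow G s q s' t := by
  obtain ⟨c, x, P, w, h1, h2, h3, h4, h5, h6, h7, h8, h9⟩ := h
  have hne : ∀ (u : U) (v : W), (u.1 : Fin n) ≠ v.1 := by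
    intro u v huv
    exact (Finset.disjoint_left.mp hUW u.2) (by rw [huv]; exact v.2)
  refine ⟨fun j => (c j).1, fun i j => (x i j).1, fun i a => (P i a).1, fun l => (w l).1,
    fun j j' hj => h1 (Subtype.ext hj), fun p p' hp => h2 (Subtype.ext hp),
    fun p p' hp => h3 (Subtype.ext hp), fun l l' hl => h4 (Subtype.ext hl),
    fun j i k => hne _ _, fun j i a hj => h5 j i a (Subtype.ext hj), fun j l => hne _ _,
    fun i j k a => (hne _ _).symm, fun i j l hj => h6 i j l (Subtype.ext hj),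
    fun i a l => hne _ _, fun i j => h7 i j, fun j l => h8 j l, fun i j a => h9 i j a⟩

lemma pow_ineq (C N D ε : ℝ) (hC : 1 ≤ C) (hN : 1 ≤ N) (hD : C * N ^ ε ≤ D) (m k : ℕ)
    (hm : 1 ≤ m) (hk : (k : ℝ) ≤ ε * m) : C * N ^ k ≤ D ^ m := by
  have hN0 : 0 < N := lt_of_lt_of_le one_pos hN
  have h1 : (C * N ^ ε) ^ m ≤ D ^ m := pow_le_pow_left₀ (by positivity) hD m
  refine le_trans ?_ h1
  rw [mul_pow]
  apply mul_le_mul
  · exact le_self_pow₀ hC (by omega)
  · rw [← Real.rpow_natCast N k, ← Real.rpow_natCast (N ^ ε) m, ← Real.rpow_mul hN0.le]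
    exact Real.rpow_le_rpow_of_exponent_le hN hk
  · positivity
  · positivity

/-- the theorem in terms of the numbers s, q, s' -/
theorem main_numbers (s q s' t : ℕ) (hs : 1 ≤ s) (hq : 1 ≤ q) (hs' : s' ≤ q) (ht : 0 < t)
    (hcond : q ^ 2 + q + 1 ≤ s * q + s' * (q + 1)) (ρ : ℝ)
    (hρ : ρ * (s + 1) = s * (q + 1) + s') :
    ∃ C : ℝ, ∀ n : ℕ, ∀ G : SimpleGraph (Fin n), ¬ GBlow G s q s' t →
      (G.edgeSet.ncard : ℝ) ≤ C * (n : ℝ) ^ (2 - 1 / ρ) := by
  have hsR : (1 : ℝ) ≤ s := by exact_mod_cast hs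
  have hqR : (1 : ℝ) ≤ q := by exact_mod_cast hq
  have hs'R : (s' : ℝ) ≤ q := by exact_mod_cast hs'
  have hs'0 : (0 : ℝ) ≤ s' := Nat.cast_nonneg _
  have hcR : (q : ℝ) ^ 2 + q + 1 ≤ s * q + s' * (q + 1) := by exact_mod_cast hcond
  -- rho >= q + 1/(q+1)
  have hρ1 : (q : ℝ) ^ 2 + q + 1 ≤ ρ * (q + 1) := by
    have h1 : (ρ * (q + 1)) * (s + 1) = (s * (q + 1) + s') * (q + 1) := by rw [← hρ]; ring
    have h2 : ((q : ℝ) ^ 2 + q + 1) * (s + 1) ≤ (ρ * (q + 1)) * (s + 1) := by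
      rw [h1]; nlinarith
    exact le_of_mul_le_mul_right h2 (by positivity)
  have hρq : (q : ℝ) < ρ := by nlinarith
  have hρ1' : 1 < ρ := by linarith
  have hρ0 : 0 < ρ := by linarith
  set ε : ℝ := 1 - 1 / ρ with hε
  have hε0 : 0 < ε := by
    rw [hε, sub_pos, div_lt_one hρ0]; exact hρ1'
  have hε1 : ε < 1 := by
    rw [hε]; have : 0 < 1 / ρ := by positivity
    linarith
  obtain ⟨K, hK, hreg⟩ := Pool.Agent.W247.BC.reg_holds ε hε0 hε1
  obtain ⟨C0, hcore⟩ := core_holds s q s' t K hs hq hs' ht hK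
  obtain ⟨C', hC'⟩ := hreg (max C0 1)
  refine ⟨C', fun n G hno => ?_⟩
  by_contra hcon
  push Not at hcon
  rw [show (2 - 1 / ρ) = 1 + ε by rw [hε]; ring] at hcon
  obtain ⟨U, W, D, hUW, hU, hW, hD, hdU, hdW⟩ := hC' n G hcon
  apply hno
  apply gblow_of_blow G U W hUW
  have hN : (1 : ℝ) ≤ ((U.card + W.card : ℕ) : ℝ) := by
    have := hU.card_pos
    exact_mod_cast (by omega : 1 ≤ U.card + W.card)
  have hC1 : (1 : ℝ) ≤ max C0 1 := le_max_right _ _
  have hC0 : C0 ≤ max C0 1 := le_max_left _ _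
  have hgen : ∀ m k : ℕ, 1 ≤ m → (k : ℝ) ≤ ε * m →
      C0 * ((U.card + W.card : ℕ) : ℝ) ^ k ≤ (D : ℝ) ^ m := by
    intro m k hm hk
    refine le_trans ?_ (pow_ineq (max C0 1) _ D ε hC1 hN hD m k hm hk)
    exact mul_le_mul_of_nonneg_right hC0 (by positivity)
  have hUne : Nonempty U := by
    obtain ⟨u, hu⟩ := hU
    exact ⟨⟨u, hu⟩⟩
  have hcU : Fintype.card U = U.card := Fintype.card_coe U
  have hcW : Fintype.card W = W.card := Fintype.card_coe W
  have hfilt1 : ∀ u : U, deg1 (fun (u : U) (w : W) => G.Adj u.1 w.1) u =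
      (W.filter (fun w => G.Adj u.1 w)).card := by
    intro u
    unfold deg1
    rw [← Finset.card_map (Function.Embedding.subtype _)]
    congr 1
    ext v
    simp only [Finset.mem_map, Finset.mem_filter, Finset.mem_univ, true_and,
      Function.Embedding.coe_subtype]
    constructor
    · rintro ⟨a, ha, rfl⟩
      exact ⟨a.2, ha⟩
    · rintro ⟨h1, h2⟩
      exact ⟨⟨v, h1⟩, h2, rfl⟩
  have hfilt2 : ∀ w : W, deg2 (fun (u : U) (w : W) => G.Adj u.1 w.1) w =
      (U.filter (fun u => G.Adj u w.1)).card := by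
    intro w
    unfold deg2
    rw [← Finset.card_map (Function.Embedding.subtype _)]
    congr 1
    ext v
    simp only [Finset.mem_map, Finset.mem_filter, Finset.mem_univ, true_and,
      Function.Embedding.coe_subtype]
    constructor
    · rintro ⟨a, ha, rfl⟩
      exact ⟨a.2, ha⟩
    · rintro ⟨h1, h2⟩
      exact ⟨⟨v, h1⟩, h2, rfl⟩
  apply hcore U W (fun (u : U) (w : W) => G.Adj u.1 w.1) D
  · refine ⟨?_, ?_, ?_, ?_⟩
    · intro u; rw [hfilt1]; exact (hdU u.1 u.2).1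
    · intro u; rw [hfilt1]; exact (hdU u.1 u.2).2
    · intro w; rw [hfilt2]; exact (hdW w.1 w.2).1
    · intro w; rw [hfilt2]; exact (hdW w.1 w.2).2
  · have := hgen 1 0 le_rfl (by simp; exact hε0.le)
    simpa using this
  · rw [hcU, hcW]
    apply hgen _ _ (le_max_right _ _)
    have h1 : max s' 1 ≤ q := max_le hs' hq
    have h2 : ((max s' 1 - 1 : ℕ) : ℝ) = ((max s' 1 : ℕ) : ℝ) - 1 := by
      rw [Nat.cast_sub (le_max_right _ _)]; simp
    rw [h2, hε]
    have h3 : ((max s' 1 : ℕ) : ℝ) ≤ q := by exact_mod_cast h1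
    have h4 : 1 / ρ * ((max s' 1 : ℕ) : ℝ) ≤ 1 := by
      rw [one_div, inv_mul_le_iff₀ hρ0]; linarith
    nlinarith
  · rw [hcU, hcW]
    apply hgen _ _ (by omega)
    rw [hε]
    push_cast
    have h4 : 1 / ρ * ((q : ℝ) ^ 2 + q + 1) ≤ q + 1 := by
      rw [one_div, inv_mul_le_iff₀ hρ0]; linarith
    nlinarith
  · rw [hcU, hcW]
    apply hgen _ _ (by omega)
    have h5 : 1 ≤ s * q := Nat.one_le_iff_ne_zero.mpr (by positivity)
    rw [hε, Nat.cast_sub (by omega)]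
    push_cast
    have h4 : 1 / ρ * ((s : ℝ) * q + s + s') = s + 1 := by
      rw [one_div, inv_mul_eq_iff_eq_mul₀ hρ0.ne', hρ]; ring
    nlinarith

end Pool.Agent.W715.BC
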