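import Pool.Agent.W715.BC.Defs

set_option autoImplicit false

open Classical

namespace Pool.Agent.W715.BC

lemma card_filter_prod {α β : Type} [Fintype α] [Fintype β] (p : α → β → Prop)
    [∀ a, DecidablePred (p a)] [DecidablePred (fun z : α × β => p z.1 z.2)] :
    (Finset.univ.filter (fun z : α × β => p z.1 z.2)).card =
      ∑ a, (Finset.univ.filter (fun b => p a b)).card := by
  simp only [Finset.card_filter]
  rw [Fintype.sum_prod_type]
  exact Finset.sum_congr rfl (fun a _ => Finset.sum_congr rfl (fun b _ => by
    by_cases h : p a b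
    · rw [if_pos h, if_pos h]
    · rw [if_neg h, if_neg h]))

lemma card_pi_le {I β : Type} [Fintype I] [DecidableEq I] [Fintype β] (S : I → β → Prop)
    [∀ i, DecidablePred (S i)] [DecidablePred (fun x : I → β => ∀ i, S i (x i))] (M : ℕ)
    (h : ∀ i, (Finset.univ.filter (fun b => S i b)).card ≤ M) :
    (Finset.univ.filter (fun x : I → β => ∀ i, S i (x i))).card ≤ M ^ Fintype.card I := by
  have : (Finset.univ.filter (fun x : I → β => ∀ i, S i (x i))) =
      Fintype.piFinset (fun i => Finset.univ.filter (fun b => S i b)) := by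
    ext x; simp
  rw [this, Fintype.card_piFinset]
  calc ∏ i, (Finset.univ.filter (fun b => S i b)).card ≤ ∏ _i : I, M :=
        Finset.prod_le_prod (fun _ _ => Nat.zero_le _) (fun i _ => h i)
    _ = M ^ Fintype.card I := by simp

/-- covering lemma -/
lemma cover {Z W : Type} [DecidableEq W] (F : Finset Z) (supp : Z → Finset W) (m t : ℕ)
    (hm : ∀ z ∈ F, (supp z).card ≤ m) (hF : F.Nonempty)
    (hno : ¬ ∃ f : Fin t → Z, (∀ j, f j ∈ F) ∧
      ∀ i j, i ≠ j → Disjoint (supp (f i)) (supp (f j))) :
    ∃ y, F.card ≤ (m * t) * (F.filter (fun z => y ∈ supp z)).card := by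
  by_contra hcon
  push Not at hcon
  apply hno
  have key : ∀ j ≤ t, ∃ f : Fin j → Z, (∀ i, f i ∈ F) ∧
      ∀ i i', i ≠ i' → Disjoint (supp (f i)) (supp (f i')) := by
    intro j
    induction j with
    | zero => intro _; exact ⟨Fin.elim0, fun i => i.elim0, fun i => i.elim0⟩
    | succ j ih =>
      intro hj
      obtain ⟨f, hf1, hf2⟩ := ih (by omega)
      set U : Finset W := Finset.univ.biUnion (fun i => supp (f i)) with hU
      have hUc : U.card ≤ m * j := by
        calc U.card ≤ ∑ i : Fin j, (supp (f i)).card := Finset.card_biUnion_le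
          _ ≤ ∑ _i : Fin j, m := Finset.sum_le_sum (fun i _ => hm _ (hf1 i))
          _ = m * j := by simp [mul_comm]
      have hex : ∃ z ∈ F, Disjoint (supp z) U := by
        by_contra hne
        push Not at hne
        have hsub : F ⊆ U.biUnion (fun y => F.filter (fun z => y ∈ supp z)) := by
          intro z hz
          have := hne z hz
          rw [Finset.not_disjoint_iff] at this
          obtain ⟨y, hy1, hy2⟩ := this
          rw [Finset.mem_biUnion]
          exact ⟨y, hy2, by simp [hz, hy1]⟩
        have h1 : F.card ≤ ∑ y ∈ U, (F.filter (fun z => y ∈ supp z)).card :=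
          (Finset.card_le_card hsub).trans Finset.card_biUnion_le
        by_cases hU0 : U = ∅
        · rw [hU0] at h1
          simp only [Finset.sum_empty] at h1
          have := hF.card_pos
          omega
        · have hUn : U.Nonempty := Finset.nonempty_iff_ne_empty.mpr hU0
          have h2 : (m * t) * ∑ y ∈ U, (F.filter (fun z => y ∈ supp z)).card < U.card * F.card := by
            rw [Finset.mul_sum]
            calc ∑ y ∈ U, (m * t) * (F.filter (fun z => y ∈ supp z)).card
                < ∑ _y ∈ U, F.card := Finset.sum_lt_sum_of_nonempty hUn (fun y _ => hcon y)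
              _ = U.card * F.card := by simp
          have h3 : (m * t) * F.card ≤ (m * t) * ∑ y ∈ U, (F.filter (fun z => y ∈ supp z)).card :=
            Nat.mul_le_mul_left _ h1
          have h4 : U.card * F.card ≤ (m * t) * F.card :=
            Nat.mul_le_mul_right _ (hUc.trans (Nat.mul_le_mul_left _ (by omega)))
          omega
      obtain ⟨z, hz, hzU⟩ := hex
      refine ⟨Fin.snoc f z, ?_, ?_⟩
      · intro i
        refine Fin.lastCases ?_ (fun i => ?_) i
        · simpa using hz
        · simpa using hf1 i
      · intro i i'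
        refine Fin.lastCases ?_ (fun i => ?_) i
        · refine Fin.lastCases ?_ (fun i' => ?_) i'
          · intro h; exact absurd rfl h
          · intro _
            simp only [Fin.snoc_last, Fin.snoc_castSucc]
            exact hzU.mono_right (Finset.subset_biUnion_of_mem (fun i => supp (f i)) (Finset.mem_univ i'))
        · refine Fin.lastCases ?_ (fun i' => ?_) i'
          · intro _
            simp only [Fin.snoc_last, Fin.snoc_castSucc]
            exact (hzU.mono_right (Finset.subset_biUnion_of_mem (fun i => supp (f i)) (Finset.mem_univ i))).symm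
          · intro h
            simp only [Fin.snoc_castSucc]
            exact hf2 i i' (fun h' => h (by rw [h']))
  exact key t le_rfl

lemma card_filter_prod_le {α β : Type} [Fintype α] [Fintype β] (p : α → β → Prop)
    [∀ a, DecidablePred (p a)] [DecidablePred (fun z : α × β => p z.1 z.2)] (M : ℕ)
    (q : α → Prop) [DecidablePred q]
    (h : ∀ a, q a → (Finset.univ.filter (fun b => p a b)).card ≤ M)
    (h' : ∀ a b, p a b → q a) :
    (Finset.univ.filter (fun z : α × β => p z.1 z.2)).card ≤
      (Finset.univ.filter (fun a => q a)).card * M := by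
  rw [card_filter_prod]
  calc ∑ a, (Finset.univ.filter (fun b => p a b)).card
      ≤ ∑ a, (if q a then M else 0) := by
        apply Finset.sum_le_sum
        intro a _
        split_ifs with hq
        · exact h a hq
        · rw [Nat.le_zero, Finset.card_eq_zero, Finset.filter_eq_empty_iff]
          intro b _ hb
          exact hq (h' a b hb)
    _ = _ := by rw [← Finset.sum_filter, Finset.sum_const, smul_eq_mul]

/-- number of homs of a star-type tree -/
lemma hom_count {A B I J : Type} [Fintype A] [Fintype B] [Fintype I] [Fintype J] [DecidableEq I]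
    [DecidableEq J] (q s' : ℕ)
    (r : A → B → Prop) (D K : ℕ) (hr : Reg r D K) (f : J → I) :
    (Finset.univ.filter (fun z : A × (I → B) × (Fin s' → B) × (J → Fin q → A) =>
      (∀ i, r z.1 (z.2.1 i)) ∧ (∀ l, r z.1 (z.2.2.1 l)) ∧
        ∀ j a, r (z.2.2.2 j a) (z.2.1 (f j)))).card ≤
      Fintype.card A * (K * D) ^ (Fintype.card I + s' + Fintype.card J * q) := by
  have h2 : ∀ (c : A) (x : I → B), (∀ i, r c (x i)) →
      (Finset.univ.filter (fun z : (Fin s' → B) × (J → Fin q → A) =>
        (∀ i, r c (x i)) ∧ (∀ l, r c (z.1 l)) ∧ ∀ j a, r (z.2 j a) (x (f j)))).card ≤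
        (K * D) ^ (s' + Fintype.card J * q) := by
    intro c x hx
    have e3 : (Finset.univ.filter (fun z : (Fin s' → B) × (J → Fin q → A) =>
        (∀ i, r c (x i)) ∧ (∀ l, r c (z.1 l)) ∧ ∀ j a, r (z.2 j a) (x (f j)))) =
        (Finset.univ.filter (fun w : Fin s' → B => ∀ l, r c (w l))) ×ˢ
        (Finset.univ.filter (fun P : J → Fin q → A => ∀ j a, r (P j a) (x (f j)))) := by
      ext z; simp [hx]
    rw [e3, Finset.card_product, pow_add]
    apply Nat.mul_le_mul
    · have := card_pi_le (I := Fin s') (β := B) (fun _ b => r c b) (K * D) (fun _ => hr.ua c)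
      simpa using this
    · have h5 := card_pi_le (I := J) (β := Fin q → A)
        (fun j P => ∀ a, r (P a) (x (f j))) ((K * D) ^ q) (fun j => by
          have := card_pi_le (I := Fin q) (β := A) (fun _ a => r a (x (f j))) (K * D)
            (fun _ => hr.ub _)
          simpa using this)
      rw [← pow_mul] at h5
      rw [mul_comm (Fintype.card J) q]
      exact h5
  have h1 : ∀ c : A, True → (Finset.univ.filter (fun z : (I → B) × (Fin s' → B) × (J → Fin q → A) =>
      (∀ i, r c (z.1 i)) ∧ (∀ l, r c (z.2.1 l)) ∧ ∀ j a, r (z.2.2 j a) (z.1 (f j)))).card ≤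
      (K * D) ^ (Fintype.card I + s' + Fintype.card J * q) := by
    intro c _
    have e4 := card_pi_le (I := I) (β := B) (fun _ b => r c b) (K * D) (fun _ => hr.ua c)
    calc _ ≤ _ := card_filter_prod_le (α := I → B) (β := (Fin s' → B) × (J → Fin q → A))
            (fun x z => (∀ i, r c (x i)) ∧ (∀ l, r c (z.1 l)) ∧ ∀ j a, r (z.2 j a) (x (f j)))
            ((K * D) ^ (s' + Fintype.card J * q)) (fun x => ∀ i, r c (x i))
            (fun x hx => h2 c x hx) (fun x z hz => hz.1)
      _ ≤ (K * D) ^ Fintype.card I * (K * D) ^ (s' + Fintype.card J * q) :=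
        Nat.mul_le_mul_right _ e4
      _ = _ := by rw [← pow_add, add_assoc]
  calc _ ≤ _ := card_filter_prod_le (α := A) (β := (I → B) × (Fin s' → B) × (J → Fin q → A))
        (fun c z => (∀ i, r c (z.1 i)) ∧ (∀ l, r c (z.2.1 l)) ∧ ∀ j a, r (z.2.2 j a) (z.1 (f j)))
        ((K * D) ^ (Fintype.card I + s' + Fintype.card J * q)) (fun _ => True)
        (fun c hc => h1 c hc) (fun _ _ _ => trivial)
    _ = _ := by simp

end Pool.Agent.W715.BC
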