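import Pool.Agent.W715.BC.Sel

set_option autoImplicit false

open Classical

namespace Pool.Agent.W715.BC

variable {A B : Type} [Fintype A] [Fintype B]

/-- final step: a pair of sets in which tuples have many common neighbours -/
lemma final_step (s q s' t N₀ : ℕ) (hemb : ∀ (A B : Type) [Fintype A]
    [Fintype B] (r : A → B → Prop) (Y : Finset A) (w : Fin s' → B),
    Function.Injective w → (∀ y ∈ Y, ∀ l, r y (w l)) → N₀ ≤ Y.card →
    (1 / 2 : ℝ) * (Y.card : ℝ) ^ (q + 1) ≤ ((Finset.univ.filter (fun Q : Fin (q + 1) → A =>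
      (∀ i, Q i ∈ Y) ∧ s * t + s' ≤ codeg r Q)).card : ℝ) →
    Blow r s q s' t)
    (r : A → B → Prop) (CCs : Finset A) (YYs : Finset B) (w : Fin s' → B)
    (hw : Function.Injective w) (hCw : ∀ c ∈ CCs, ∀ l, r c (w l))
    (hδ : ∀ y ∈ YYs, N₀ ≤ (CCs.filter (fun c => r c y)).card)
    (κ τ M : ℝ) (hκ : 0 < κ) (hτ : 0 < τ)
    (he : κ * (CCs.card : ℝ) < (((CCs ×ˢ YYs).filter (fun u => r u.1 u.2)).card : ℝ))
    (hY : τ * (YYs.card : ℝ) ≤ M)
    (hbig : 2 * ((s * t + s' : ℕ) : ℝ) * M ^ q ≤ κ ^ (q + 1) * τ ^ q) :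
    Blow r s q s' t := by
  by_contra hno
  have hcard : ∀ y, ((CCs.filter (fun c => r c y)).card) ^ (q + 1) =
      (Finset.univ.filter (fun Q : Fin (q + 1) → A => ∀ i, Q i ∈ CCs.filter (fun c => r c y))).card := by
    intro y
    have : (Finset.univ.filter (fun Q : Fin (q + 1) → A => ∀ i, Q i ∈ CCs.filter (fun c => r c y)))
        = Fintype.piFinset (fun _ => CCs.filter (fun c => r c y)) := by
      ext Q; simp
    rw [this, Fintype.card_piFinset]
    simp
  have hlight : ∀ y ∈ YYs, (((CCs.filter (fun c => r c y)).card : ℝ)) ^ (q + 1) ≤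
      2 * ((Finset.univ.filter (fun Q : Fin (q + 1) → A =>
        (∀ i, Q i ∈ CCs.filter (fun c => r c y)) ∧ codeg r Q < s * t + s')).card : ℝ) := by
    intro y hy
    by_contra hcon
    push Not at hcon
    apply hno
    apply hemb A B r (CCs.filter (fun c => r c y)) w hw
    · intro c hc l
      exact hCw c (Finset.mem_filter.mp hc).1 l
    · exact hδ y hy
    · have h1 := hcard y
      have h2 : (Finset.univ.filter (fun Q : Fin (q + 1) → A =>
          ∀ i, Q i ∈ CCs.filter (fun c => r c y))).card =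
          (Finset.univ.filter (fun Q : Fin (q + 1) → A =>
            (∀ i, Q i ∈ CCs.filter (fun c => r c y)) ∧ s * t + s' ≤ codeg r Q)).card +
          (Finset.univ.filter (fun Q : Fin (q + 1) → A =>
            (∀ i, Q i ∈ CCs.filter (fun c => r c y)) ∧ codeg r Q < s * t + s')).card := by
        rw [← Finset.filter_filter, ← Finset.filter_filter]
        have := Finset.card_filter_add_card_filter_not (s := Finset.univ.filter
          (fun Q : Fin (q + 1) → A => ∀ i, Q i ∈ CCs.filter (fun c => r c y)))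
          (p := fun Q => s * t + s' ≤ codeg r Q)
        simp only [not_le] at this
        exact this.symm
      rw [h2] at h1
      have h3 : (((CCs.filter (fun c => r c y)).card : ℝ)) ^ (q + 1) =
          ((Finset.univ.filter (fun Q : Fin (q + 1) → A =>
            (∀ i, Q i ∈ CCs.filter (fun c => r c y)) ∧ s * t + s' ≤ codeg r Q)).card : ℝ) +
          ((Finset.univ.filter (fun Q : Fin (q + 1) → A =>
            (∀ i, Q i ∈ CCs.filter (fun c => r c y)) ∧ codeg r Q < s * t + s')).card : ℝ) := by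
        exact_mod_cast h1
      linarith
  have hsumlight : ∑ y ∈ YYs, (Finset.univ.filter (fun Q : Fin (q + 1) → A =>
        (∀ i, Q i ∈ CCs.filter (fun c => r c y)) ∧ codeg r Q < s * t + s')).card ≤
      (s * t + s') * CCs.card ^ (q + 1) := by
    have h1 : ∀ y ∈ YYs, (Finset.univ.filter (fun Q : Fin (q + 1) → A =>
        (∀ i, Q i ∈ CCs.filter (fun c => r c y)) ∧ codeg r Q < s * t + s')).card =
        ∑ Q ∈ Fintype.piFinset (fun _ : Fin (q + 1) => CCs),
          (if (∀ i, r (Q i) y) ∧ codeg r Q < s * t + s' then 1 else 0) := by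
      intro y _
      rw [← Finset.sum_filter, Finset.sum_const, smul_eq_mul, mul_one]
      congr 1
      ext Q
      simp only [Finset.mem_filter, Finset.mem_univ, true_and, Fintype.mem_piFinset]
      constructor
      · rintro ⟨h1, h2⟩
        exact ⟨fun i => (h1 i).1, fun i => (h1 i).2, h2⟩
      · rintro ⟨h1, h2, h3⟩
        exact ⟨fun i => ⟨h1 i, h2 i⟩, h3⟩
    rw [Finset.sum_congr rfl h1, Finset.sum_comm]
    calc ∑ Q ∈ Fintype.piFinset (fun _ : Fin (q + 1) => CCs), ∑ y ∈ YYs,
          (if (∀ i, r (Q i) y) ∧ codeg r Q < s * t + s' then 1 else 0)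
        ≤ ∑ Q ∈ Fintype.piFinset (fun _ : Fin (q + 1) => CCs), (s * t + s') := by
          apply Finset.sum_le_sum
          intro Q _
          by_cases hQ : codeg r Q < s * t + s'
          · refine le_trans ?_ hQ.le
            rw [← Finset.sum_filter, Finset.sum_const, smul_eq_mul, mul_one]
            unfold codeg
            apply Finset.card_le_card
            intro y hy
            simp only [Finset.mem_filter, Finset.mem_univ, true_and] at hy ⊢
            exact hy.2.1
          · simp [hQ]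
      _ = (s * t + s') * CCs.card ^ (q + 1) := by
          rw [Finset.sum_const, Fintype.card_piFinset]
          simp [mul_comm]
  have he' : (((CCs ×ˢ YYs).filter (fun u => r u.1 u.2)).card : ℝ) =
      ∑ y ∈ YYs, ((CCs.filter (fun c => r c y)).card : ℝ) := by
    rw [← Nat.cast_sum]
    congr 1
    rw [Finset.card_filter, Finset.sum_product_right]
    apply Finset.sum_congr rfl
    intro y _
    rw [Finset.card_filter]
  have hpm := pow_sum_div_card_le_sum_pow (s := YYs)
    (f := fun y => ((CCs.filter (fun c => r c y)).card : ℝ)) (fun _ _ => Nat.cast_nonneg _) q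
  have hCC : 0 < (CCs.card : ℝ) := by
    by_contra hcon
    have h0 : CCs.card = 0 := by
      have : (CCs.card : ℝ) ≤ 0 := not_lt.mp hcon
      exact_mod_cast le_antisymm this (Nat.cast_nonneg _)
    have h1 : CCs = ∅ := Finset.card_eq_zero.mp h0
    rw [h1] at he
    simp at he
  have hYY : 0 < (YYs.card : ℝ) := by
    by_contra hcon
    have h0 : YYs.card = 0 := by
      have : (YYs.card : ℝ) ≤ 0 := not_lt.mp hcon
      exact_mod_cast le_antisymm this (Nat.cast_nonneg _)
    have h1 : YYs = ∅ := Finset.card_eq_zero.mp h0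
    rw [h1] at he
    simp at he
    nlinarith
  have h1 : (κ * (CCs.card : ℝ)) ^ (q + 1) < (∑ y ∈ YYs, ((CCs.filter (fun c => r c y)).card : ℝ)) ^ (q + 1) := by
    rw [← he']
    exact pow_lt_pow_left₀ he (by positivity) (by omega)
  have h2 : (∑ y ∈ YYs, ((CCs.filter (fun c => r c y)).card : ℝ)) ^ (q + 1) ≤
      (YYs.card : ℝ) ^ q * (2 * (((s * t + s' : ℕ) : ℝ) * (CCs.card : ℝ) ^ (q + 1))) := by
    rw [div_le_iff₀ (by positivity)] at hpm
    refine hpm.trans ?_
    rw [mul_comm]
    apply mul_le_mul_of_nonneg_left _ (by positivity)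
    calc ∑ y ∈ YYs, ((CCs.filter (fun c => r c y)).card : ℝ) ^ (q + 1)
        ≤ ∑ y ∈ YYs, 2 * ((Finset.univ.filter (fun Q : Fin (q + 1) → A =>
        (∀ i, Q i ∈ CCs.filter (fun c => r c y)) ∧ codeg r Q < s * t + s')).card : ℝ) :=
          Finset.sum_le_sum hlight
      _ = 2 * ((∑ y ∈ YYs, (Finset.univ.filter (fun Q : Fin (q + 1) → A =>
        (∀ i, Q i ∈ CCs.filter (fun c => r c y)) ∧ codeg r Q < s * t + s')).card : ℕ) : ℝ) := by
          rw [← Finset.mul_sum, Nat.cast_sum]
      _ ≤ 2 * (((s * t + s') * CCs.card ^ (q + 1) : ℕ) : ℝ) := by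
          apply mul_le_mul_of_nonneg_left _ (by norm_num)
          exact_mod_cast hsumlight
      _ = _ := by push_cast; ring
  have h3 : (κ * (CCs.card : ℝ)) ^ (q + 1) * τ ^ q <
      ((YYs.card : ℝ) ^ q * (2 * (((s * t + s' : ℕ) : ℝ) * (CCs.card : ℝ) ^ (q + 1)))) * τ ^ q :=
    mul_lt_mul_of_pos_right (lt_of_lt_of_le h1 h2) (by positivity)
  have h4 : (τ * (YYs.card : ℝ)) ^ q ≤ M ^ q := pow_le_pow_left₀ (by positivity) hY q
  have h5 : (2 * (((s * t + s' : ℕ) : ℝ) * (CCs.card : ℝ) ^ (q + 1))) * (τ * (YYs.card : ℝ)) ^ q ≤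
      (2 * (((s * t + s' : ℕ) : ℝ) * (CCs.card : ℝ) ^ (q + 1))) * M ^ q :=
    mul_le_mul_of_nonneg_left h4 (by positivity)
  have h6 : (CCs.card : ℝ) ^ (q + 1) * (κ ^ (q + 1) * τ ^ q) <
      (CCs.card : ℝ) ^ (q + 1) * (2 * ((s * t + s' : ℕ) : ℝ) * M ^ q) := by
    calc (CCs.card : ℝ) ^ (q + 1) * (κ ^ (q + 1) * τ ^ q)
        = (κ * (CCs.card : ℝ)) ^ (q + 1) * τ ^ q := by rw [mul_pow]; ring
      _ < _ := h3
      _ = (2 * (((s * t + s' : ℕ) : ℝ) * (CCs.card : ℝ) ^ (q + 1))) * (τ * (YYs.card : ℝ)) ^ q := by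
          rw [mul_pow]; ring
      _ ≤ _ := h5
      _ = _ := by ring
  have h7 := lt_of_mul_lt_mul_left h6 (by positivity)
  linarith

end Pool.Agent.W715.BC
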