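import Pool.Agent.W715.BC.Tools

set_option autoImplicit false

open Classical

namespace Pool.Agent.W715.BC

lemma card_pi_fix_le {I β : Type} [Fintype I] [DecidableEq I] [Fintype β] (S : I → β → Prop)
    [∀ i, DecidablePred (S i)] (M : ℕ) (i₀ : I) (y : β) (p : (I → β) → Prop) [DecidablePred p]
    (hp : ∀ x, p x → x i₀ = y ∧ ∀ i, i ≠ i₀ → S i (x i))
    (h : ∀ i, i ≠ i₀ → (Finset.univ.filter (fun b => S i b)).card ≤ M) :
    (Finset.univ.filter (fun x : I → β => p x)).card ≤ M ^ (Fintype.card I - 1) := by
  have h1 := card_pi_le (I := {i // i ≠ i₀}) (β := β) (fun i b => S i.1 b) M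
    (fun i => h i.1 i.2)
  have h2 : Fintype.card {i // i ≠ i₀} = Fintype.card I - 1 := by
    simp
  rw [h2] at h1
  refine le_trans ?_ h1
  apply Finset.card_le_card_of_injOn (fun x => fun i : {i // i ≠ i₀} => x i.1)
  · intro x hx
    simp only [Finset.coe_filter, Finset.mem_univ, true_and, Set.mem_ofPred_eq] at hx ⊢
    intro i
    exact (hp x hx).2 i.1 i.2
  · intro x hx x' hx' hxx
    simp only [Finset.coe_filter, Finset.mem_univ, true_and, Set.mem_ofPred_eq] at hx hx'
    funext i
    by_cases hi : i = i₀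
    · subst hi
      rw [(hp x hx).1, (hp x' hx').1]
    · exact congrFun hxx ⟨i, hi⟩

/-- extensions of a root tuple -/
noncomputable def Ext {A B : Type} [Fintype A] [Fintype B] {s q s' : ℕ} (r : A → B → Prop) (L : ℕ)
    (w : Fin s' → B) (P : Fin s → Fin q → A) : Finset (A × (Fin s → B)) :=
  Finset.univ.filter (fun z : A × (Fin s → B) => Clean r L z.1 z.2 w P)

lemma mem_Ext {A B : Type} [Fintype A] [Fintype B] {s q s' : ℕ} {r : A → B → Prop} {L : ℕ}
    {w : Fin s' → B} {P : Fin s → Fin q → A} {z : A × (Fin s → B)} :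
    z ∈ Ext r L w P ↔ Clean r L z.1 z.2 w P := by
  simp [Ext]

lemma Clean.com {A B : Type} [Fintype B] {s q s' : ℕ} {r : A → B → Prop} {L : ℕ} {c : A}
    {x : Fin s → B} {w : Fin s' → B} {P : Fin s → Fin q → A} (h : Clean r L c x w P) (i : Fin s) :
    ∀ a, r ((Fin.cons c (P i) : Fin (q + 1) → A) a) (x i) := by
  intro a
  refine Fin.cases ?_ (fun a => ?_) a
  · simpa using h.1 i
  · simpa using h.2.2.1 i a

lemma ext_fib_c {A B : Type} [Fintype A] [Fintype B] {s q s' : ℕ} (r : A → B → Prop) (L : ℕ)
    (w : Fin s' → B) (P : Fin s → Fin q → A) (c : A) :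
    ((Ext r L w P).filter (fun z => z.1 = c)).card ≤ L ^ s := by
  by_cases hne : ((Ext r L w P).filter (fun z => z.1 = c)).Nonempty
  · obtain ⟨z₀, hz₀⟩ := hne
    rw [Finset.mem_filter, mem_Ext] at hz₀
    have hL : ∀ i, codeg r (Fin.cons c (P i) : Fin (q + 1) → A) < L := by
      intro i
      have := hz₀.1.2.2.2.1 i
      rwa [hz₀.2] at this
    have h1 := card_pi_le (I := Fin s) (β := B)
      (fun i b => ∀ a, r ((Fin.cons c (P i) : Fin (q + 1) → A) a) b) L (fun i => (hL i).le)
    rw [Fintype.card_fin] at h1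
    refine le_trans ?_ h1
    apply Finset.card_le_card_of_injOn (fun z => z.2)
    · intro z hz
      simp only [Finset.coe_filter, Set.mem_ofPred_eq, mem_Ext] at hz
      simp only [Finset.coe_filter, Finset.mem_univ, true_and, Set.mem_ofPred_eq]
      intro i
      have := hz.1.com i
      rw [hz.2] at this
      exact this
    · intro z hz z' hz' hzz
      simp only [Finset.coe_filter, Set.mem_ofPred_eq] at hz hz'
      exact Prod.ext (hz.2.trans hz'.2.symm) hzz
  · rw [Finset.not_nonempty_iff_eq_empty] at hne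
    rw [hne]
    simp

lemma ext_fib_cy {A B : Type} [Fintype A] [Fintype B] {s q s' : ℕ} (r : A → B → Prop) (L : ℕ)
    (w : Fin s' → B) (P : Fin s → Fin q → A) (c : A) (i₀ : Fin s) (y : B) :
    ((Ext r L w P).filter (fun z => z.1 = c ∧ z.2 i₀ = y)).card ≤ L ^ (s - 1) := by
  by_cases hne : ((Ext r L w P).filter (fun z => z.1 = c ∧ z.2 i₀ = y)).Nonempty
  · obtain ⟨z₀, hz₀⟩ := hne
    rw [Finset.mem_filter, mem_Ext] at hz₀
    have hL : ∀ i, codeg r (Fin.cons c (P i) : Fin (q + 1) → A) < L := by
      intro i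
      have := hz₀.1.2.2.2.1 i
      rwa [hz₀.2.1] at this
    have h1 := card_pi_fix_le (I := Fin s) (β := B)
      (fun i b => ∀ a, r ((Fin.cons c (P i) : Fin (q + 1) → A) a) b) L i₀ y
      (fun x => x i₀ = y ∧ ∀ i, i ≠ i₀ → ∀ a, r ((Fin.cons c (P i) : Fin (q + 1) → A) a) (x i))
      (fun x hx => hx) (fun i _ => (hL i).le)
    rw [Fintype.card_fin] at h1
    refine le_trans ?_ h1
    apply Finset.card_le_card_of_injOn (fun z => z.2)
    · intro z hz
      simp only [Finset.coe_filter, Set.mem_ofPred_eq, mem_Ext] at hz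
      simp only [Finset.coe_filter, Finset.mem_univ, true_and, Set.mem_ofPred_eq]
      refine ⟨hz.2.2, fun i _ => ?_⟩
      have := hz.1.com i
      rw [hz.2.1] at this
      exact this
    · intro z hz z' hz' hzz
      simp only [Finset.coe_filter, Set.mem_ofPred_eq] at hz hz'
      exact Prod.ext (hz.2.1.trans hz'.2.1.symm) hzz
  · rw [Finset.not_nonempty_iff_eq_empty] at hne
    rw [hne]
    simp

/-- a popular child -/
lemma popular {A B : Type} [Fintype A] [Fintype B] {s q s' t : ℕ} (r : A → B → Prop) (L : ℕ)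
    (ht : 0 < t) (hno : ¬ Blow r s q s' t) (w : Fin s' → B) (P : Fin s → Fin q → A)
    (hbig : (s + 1) * t * L ^ s < (Ext r L w P).card) :
    ∃ (i : Fin s) (y : B), (Ext r L w P).card ≤
      ((s + 1) * t * s) * ((Ext r L w P).filter (fun z => z.2 i = y)).card := by
  have hF : (Ext r L w P).Nonempty := by
    rw [← Finset.card_pos]; omega
  obtain ⟨y, hy⟩ := cover (Ext r L w P)
    (fun z => insert (Sum.inl z.1 : A ⊕ B) (Finset.univ.image (fun i => Sum.inr (z.2 i))))
    (s + 1) t (by
      intro z _
      calc _ ≤ (Finset.univ.image (fun i => (Sum.inr (z.2 i) : A ⊕ B))).card + 1 :=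
            Finset.card_insert_le _ _
        _ ≤ s + 1 := by
            have : (Finset.univ.image (fun i => (Sum.inr (z.2 i) : A ⊕ B))).card ≤
              (Finset.univ : Finset (Fin s)).card := Finset.card_image_le
            simpa using this) hF (by
      rintro ⟨f, hf1, hf2⟩
      apply hno
      have hc : ∀ j, Clean r L (f j).1 (f j).2 w P := fun j => mem_Ext.mp (hf1 j)
      have h0 := hc ⟨0, ht⟩
      refine ⟨fun j => (f j).1, fun i j => (f j).2 i, P, w, ?_, ?_, h0.2.2.2.2.2.2.2.1,
        h0.2.2.2.2.2.1, ?_, ?_, ?_, ?_, ?_⟩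
      · intro j j' hjj
        by_contra hne
        have := hf2 j j' hne
        rw [Finset.disjoint_left] at this
        apply this (a := Sum.inl (f j).1)
        · simp
        · simp only at hjj
          rw [hjj]; simp
      · rintro ⟨i, j⟩ ⟨i', j'⟩ hjj
        simp only at hjj
        by_cases hne : j = j'
        · subst hne
          have := (hc j).2.2.2.2.1 hjj
          rw [this]
        · exfalso
          have := hf2 j j' hne
          rw [Finset.disjoint_left] at this
          apply this (a := Sum.inr ((f j).2 i))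
          · simp
          · rw [hjj]; simp
      · intro j i a
        exact (hc j).2.2.2.2.2.2.2.2 i a
      · intro i j l
        exact (hc j).2.2.2.2.2.2.1 i l
      · intro i j
        exact (hc j).1 i
      · intro j l
        exact (hc j).2.1 l
      · intro i j a
        exact (hc j).2.2.1 i a)
  rcases y with c | b
  · exfalso
    have h1 : ((Ext r L w P).filter (fun z => (Sum.inl c : A ⊕ B) ∈
        insert (Sum.inl z.1 : A ⊕ B) (Finset.univ.image (fun i => Sum.inr (z.2 i))))).card ≤ L ^ s := by
      refine le_trans (Finset.card_le_card ?_) (ext_fib_c r L w P c)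
      intro z hz
      rw [Finset.mem_filter] at hz ⊢
      refine ⟨hz.1, ?_⟩
      have := hz.2
      simp at this
      exact this.symm
    have h2 : (s + 1) * t * ((Ext r L w P).filter (fun z => (Sum.inl c : A ⊕ B) ∈
        insert (Sum.inl z.1 : A ⊕ B) (Finset.univ.image (fun i => Sum.inr (z.2 i))))).card ≤
        (s + 1) * t * L ^ s := Nat.mul_le_mul_left _ h1
    omega
  · have h1 : ((Ext r L w P).filter (fun z => (Sum.inr b : A ⊕ B) ∈
        insert (Sum.inl z.1 : A ⊕ B) (Finset.univ.image (fun i => Sum.inr (z.2 i))))).card ≤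
        ∑ i : Fin s, ((Ext r L w P).filter (fun z => z.2 i = b)).card := by
      refine le_trans (Finset.card_le_card ?_) Finset.card_biUnion_le
      intro z hz
      rw [Finset.mem_filter] at hz
      have := hz.2
      simp at this
      obtain ⟨i, hi⟩ := this
      rw [Finset.mem_biUnion]
      exact ⟨i, Finset.mem_univ _, by rw [Finset.mem_filter]; exact ⟨hz.1, hi⟩⟩
    have hs : 0 < s := by
      rcases Nat.eq_zero_or_pos s with h | h
      · exfalso
        subst h
        rw [Finset.univ_eq_empty (α := Fin 0), Finset.sum_empty, Nat.le_zero] at h1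
        rw [Finset.univ_eq_empty (α := Fin 0), h1] at hy
        have := hF.card_pos
        omega
      · exact h
    have : Nonempty (Fin s) := ⟨⟨0, hs⟩⟩
    obtain ⟨i, _, hi⟩ := Finset.exists_max_image (Finset.univ : Finset (Fin s))
      (fun i => ((Ext r L w P).filter (fun z => z.2 i = b)).card) Finset.univ_nonempty
    refine ⟨i, b, ?_⟩
    have h3 : ∑ i : Fin s, ((Ext r L w P).filter (fun z => z.2 i = b)).card ≤
        s * ((Ext r L w P).filter (fun z => z.2 i = b)).card := by
      calc _ ≤ ∑ _i : Fin s, ((Ext r L w P).filter (fun z => z.2 i = b)).card :=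
            Finset.sum_le_sum (fun j _ => hi j (Finset.mem_univ _))
        _ = _ := by simp
    calc (Ext r L w P).card ≤ _ := hy
      _ ≤ (s + 1) * t * (s * ((Ext r L w P).filter (fun z => z.2 i = b)).card) :=
          Nat.mul_le_mul_left _ (h1.trans h3)
      _ = _ := by ring

end Pool.Agent.W715.BC
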