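import Pool.Agent.W715.BC.Str

set_option autoImplicit false

open Classical

namespace Pool.Agent.W715.BC

variable {A B : Type} [Fintype A] [Fintype B]

/-- put the tuple p in place i₀ -/
noncomputable def jn {s q : ℕ} (i₀ : Fin s) (p : Fin q → A) (Pm : {i : Fin s // i ≠ i₀} → Fin q → A) :
    Fin s → Fin q → A := fun i => if h : i = i₀ then p else Pm ⟨i, h⟩

lemma jn_restrict {s q : ℕ} (i₀ : Fin s) (P : Fin s → Fin q → A) :
    jn i₀ (P i₀) (fun i => P i.1) = P := by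
  funext i
  unfold jn
  by_cases h : i = i₀
  · rw [dif_pos h, h]
  · rw [dif_neg h]

lemma jn_self {s q : ℕ} (i₀ : Fin s) (p : Fin q → A) (Pm : {i : Fin s // i ≠ i₀} → Fin q → A) :
    jn i₀ p Pm i₀ = p := by
  unfold jn; rw [dif_pos rfl]

lemma jn_ne {s q : ℕ} (i₀ : Fin s) (p : Fin q → A) (Pm : {i : Fin s // i ≠ i₀} → Fin q → A)
    (j : {i : Fin s // i ≠ i₀}) : jn i₀ p Pm j.1 = Pm j := by
  unfold jn; rw [dif_neg j.2]

/-- number of root tuples of the popular child whose popular vertex is y -/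
noncomputable def cnt [Nonempty B] {s q s' : ℕ} (r : A → B → Prop) (L B₀ β : ℕ) (i₀ : Fin s)
    (w : Fin s' → B) (Pm : {i : Fin s // i ≠ i₀} → Fin q → A) (y : B) : ℕ :=
  (Finset.univ.filter (fun p : Fin q → A => Gd r L B₀ β i₀ w (jn i₀ p Pm) ∧
    ysel r L B₀ β i₀ w (jn i₀ p Pm) = y)).card

/-- partial embeddings -/
def PC {s q s' : ℕ} (r : A → B → Prop) (L : ℕ) (i₀ : Fin s)
    (z : A × (Fin s → B) × (Fin s' → B) × ({i : Fin s // i ≠ i₀} → Fin q → A)) : Prop :=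
  (∀ i, r z.1 (z.2.1 i)) ∧ (∀ l, r z.1 (z.2.2.1 l)) ∧
    (∀ (j : {i : Fin s // i ≠ i₀}) a, r (z.2.2.2 j a) (z.2.1 j.1)) ∧
    ∀ j : {i : Fin s // i ≠ i₀}, codeg r (Fin.cons z.1 (z.2.2.2 j) : Fin (q + 1) → A) < L

lemma EE_le [Nonempty B] {s q s' : ℕ} (r : A → B → Prop) (L B₀ β D K : ℕ) (hr : Reg r D K)
    (i₀ : Fin s) (θ : ℝ) (hθ : 0 ≤ θ) :
    ((EE (q := q) (s' := s') r L B₀ β i₀).card : ℝ) ≤
      θ * ((Finset.univ.filter (fun z : A × (Fin s → B) × (Fin s' → B) ×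
        ({i : Fin s // i ≠ i₀} → Fin q → A) => PC r L i₀ z)).card : ℝ) +
      ((K * D : ℕ) : ℝ) ^ q * ((Finset.univ.filter (fun z : A × (Fin s → B) × (Fin s' → B) ×
        ({i : Fin s // i ≠ i₀} → Fin q → A) => PC r L i₀ z ∧
          θ ≤ (cnt r L B₀ β i₀ z.2.2.1 z.2.2.2 (z.2.1 i₀) : ℝ))).card : ℝ) := by
  have h1 : (EE (q := q) (s' := s') r L B₀ β i₀).card ≤
      (Finset.univ.filter (fun u : (A × (Fin s → B) × (Fin s' → B) ×
        ({i : Fin s // i ≠ i₀} → Fin q → A)) × (Fin q → A) =>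
        Gd r L B₀ β i₀ u.1.2.2.1 (jn i₀ u.2 u.1.2.2.2) ∧
        Clean r L u.1.1 u.1.2.1 u.1.2.2.1 (jn i₀ u.2 u.1.2.2.2) ∧
        u.1.2.1 i₀ = ysel r L B₀ β i₀ u.1.2.2.1 (jn i₀ u.2 u.1.2.2.2))).card := by
    apply Finset.card_le_card_of_injOn
      (fun v => ((v.2.1, v.2.2, v.1.1, fun i => v.1.2 i.1), v.1.2 i₀))
    · intro v hv
      simp only [EE, Finset.coe_filter, Finset.mem_univ, true_and, Set.mem_ofPred_eq] at hv ⊢
      simp only [jn_restrict]
      exact hv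
    · intro v hv v' hv' hvv
      simp only [Prod.mk.injEq] at hvv
      obtain ⟨⟨h1, h2, h3, h4⟩, h5⟩ := hvv
      refine Prod.ext (Prod.ext h3 ?_) (Prod.ext h1 h2)
      funext i
      by_cases hi : i = i₀
      · rw [hi]; exact h5
      · exact congrFun h4 ⟨i, hi⟩
  rw [card_filter_prod (α := A × (Fin s → B) × (Fin s' → B) ×
        ({i : Fin s // i ≠ i₀} → Fin q → A)) (β := Fin q → A)
        (fun z p => Gd r L B₀ β i₀ z.2.2.1 (jn i₀ p z.2.2.2) ∧
        Clean r L z.1 z.2.1 z.2.2.1 (jn i₀ p z.2.2.2) ∧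
        z.2.1 i₀ = ysel r L B₀ β i₀ z.2.2.1 (jn i₀ p z.2.2.2))] at h1
  have h2 : ∀ z : A × (Fin s → B) × (Fin s' → B) × ({i : Fin s // i ≠ i₀} → Fin q → A),
      ((Finset.univ.filter (fun p : Fin q → A => Gd r L B₀ β i₀ z.2.2.1 (jn i₀ p z.2.2.2) ∧
        Clean r L z.1 z.2.1 z.2.2.1 (jn i₀ p z.2.2.2) ∧
        z.2.1 i₀ = ysel r L B₀ β i₀ z.2.2.1 (jn i₀ p z.2.2.2))).card : ℝ) ≤
      (if PC r L i₀ z then θ else 0) + (if PC r L i₀ z ∧
          θ ≤ (cnt r L B₀ β i₀ z.2.2.1 z.2.2.2 (z.2.1 i₀) : ℝ) then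
        ((K * D : ℕ) : ℝ) ^ q else 0) := by
    intro z
    by_cases hz : PC r L i₀ z
    · by_cases hc : θ ≤ (cnt r L B₀ β i₀ z.2.2.1 z.2.2.2 (z.2.1 i₀) : ℝ)
      · rw [if_pos hz, if_pos ⟨hz, hc⟩]
        have h3 : (Finset.univ.filter (fun p : Fin q → A =>
            Gd r L B₀ β i₀ z.2.2.1 (jn i₀ p z.2.2.2) ∧
            Clean r L z.1 z.2.1 z.2.2.1 (jn i₀ p z.2.2.2) ∧
            z.2.1 i₀ = ysel r L B₀ β i₀ z.2.2.1 (jn i₀ p z.2.2.2))).card ≤ (K * D) ^ q := by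
          have h4 := card_pi_le (I := Fin q) (β := A) (fun _ a => r a (z.2.1 i₀)) (K * D)
                (fun _ => hr.ub _)
          rw [Fintype.card_fin] at h4
          refine le_trans (Finset.card_le_card ?_) h4
          intro p hp
          simp only [Finset.mem_filter, Finset.mem_univ, true_and] at hp ⊢
          intro a
          have := hp.2.1.2.2.1 i₀ a
          rwa [jn_self] at this
        have h5 : ((Finset.univ.filter (fun p : Fin q → A =>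
            Gd r L B₀ β i₀ z.2.2.1 (jn i₀ p z.2.2.2) ∧
            Clean r L z.1 z.2.1 z.2.2.1 (jn i₀ p z.2.2.2) ∧
            z.2.1 i₀ = ysel r L B₀ β i₀ z.2.2.1 (jn i₀ p z.2.2.2))).card : ℝ) ≤
            ((K * D : ℕ) : ℝ) ^ q := by exact_mod_cast h3
        linarith
      · rw [if_pos hz, if_neg (fun h => hc h.2), add_zero]
        push Not at hc
        refine le_trans ?_ hc.le
        unfold cnt
        norm_cast
        apply Finset.card_le_card
        intro p hp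
        simp only [Finset.mem_filter, Finset.mem_univ, true_and] at hp ⊢
        exact ⟨hp.1, hp.2.2.symm⟩
    · rw [if_neg hz, if_neg (fun h => hz h.1), add_zero]
      rw [show ((0 : ℝ)) = ((0 : ℕ) : ℝ) by norm_num]
      norm_cast
      rw [Nat.le_zero, Finset.card_eq_zero, Finset.filter_eq_empty_iff]
      intro p _ hp
      apply hz
      refine ⟨hp.2.1.1, hp.2.1.2.1, ?_, ?_⟩
      · intro j a
        have := hp.2.1.2.2.1 j.1 a
        rwa [jn_ne] at this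
      · intro j
        have := hp.2.1.2.2.2.1 j.1
        rwa [jn_ne] at this
  calc ((EE (q := q) (s' := s') r L B₀ β i₀).card : ℝ) ≤ _ := Nat.cast_le.mpr h1
    _ = ∑ z : A × (Fin s → B) × (Fin s' → B) × ({i : Fin s // i ≠ i₀} → Fin q → A),
        ((Finset.univ.filter (fun p : Fin q → A => Gd r L B₀ β i₀ z.2.2.1 (jn i₀ p z.2.2.2) ∧
        Clean r L z.1 z.2.1 z.2.2.1 (jn i₀ p z.2.2.2) ∧
        z.2.1 i₀ = ysel r L B₀ β i₀ z.2.2.1 (jn i₀ p z.2.2.2))).card : ℝ) := by push_cast; rfl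
    _ ≤ ∑ z : A × (Fin s → B) × (Fin s' → B) × ({i : Fin s // i ≠ i₀} → Fin q → A),
        ((if PC r L i₀ z then θ else 0) + (if PC r L i₀ z ∧
          θ ≤ (cnt r L B₀ β i₀ z.2.2.1 z.2.2.2 (z.2.1 i₀) : ℝ) then
        ((K * D : ℕ) : ℝ) ^ q else 0)) := Finset.sum_le_sum (fun z _ => h2 z)
    _ = _ := by
        rw [Finset.sum_add_distrib, ← Finset.sum_filter, ← Finset.sum_filter, Finset.sum_const,
          Finset.sum_const, nsmul_eq_mul, nsmul_eq_mul]
        ring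

lemma PC_le {s q s' : ℕ} (r : A → B → Prop) (L D K : ℕ) (hr : Reg r D K) (i₀ : Fin s) :
    (Finset.univ.filter (fun z : A × (Fin s → B) × (Fin s' → B) ×
        ({i : Fin s // i ≠ i₀} → Fin q → A) => PC r L i₀ z)).card ≤
      Fintype.card A * (K * D) ^ (s + s' + (s - 1) * q) := by
  have h := hom_count (I := Fin s) (J := {i : Fin s // i ≠ i₀}) q s' r D K hr (fun j => j.1)
  have h2 : Fintype.card {i : Fin s // i ≠ i₀} = s - 1 := by simp
  rw [h2, Fintype.card_fin] at h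
  refine le_trans (Finset.card_le_card ?_) h
  intro z hz
  simp only [Finset.mem_filter, Finset.mem_univ, true_and] at hz ⊢
  exact ⟨hz.1, hz.2.1, hz.2.2.1⟩

/-- centres compatible with a partial root tuple -/
noncomputable def CC {s q s' : ℕ} (r : A → B → Prop) (i₀ : Fin s) (w : Fin s' → B)
    (Pm : {i : Fin s // i ≠ i₀} → Fin q → A) : Finset A :=
  Finset.univ.filter (fun c => (∀ l, r c (w l)) ∧
    ∀ j : {i : Fin s // i ≠ i₀}, ∃ b, r c b ∧ ∀ a, r (Pm j a) b)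

/-- popular vertices -/
noncomputable def YY [Nonempty B] {s q s' : ℕ} (r : A → B → Prop) (L B₀ β : ℕ) (i₀ : Fin s)
    (θ : ℝ) (w : Fin s' → B) (Pm : {i : Fin s // i ≠ i₀} → Fin q → A) : Finset B :=
  Finset.univ.filter (fun y => θ ≤ (cnt r L B₀ β i₀ w Pm y : ℝ))

lemma CC_sum_le [Nonempty B] {s q s' : ℕ} (r : A → B → Prop) (D K : ℕ) (hr : Reg r D K)
    (i₀ : Fin s) :
    ∑ R : (Fin s' → B) × ({i : Fin s // i ≠ i₀} → Fin q → A), (CC r i₀ R.1 R.2).card ≤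
      Fintype.card A * (K * D) ^ ((s - 1) + s' + (s - 1) * q) := by
  have h := hom_count (I := {i : Fin s // i ≠ i₀}) (J := {i : Fin s // i ≠ i₀}) q s' r D K hr
    (fun j => j)
  have h2 : Fintype.card {i : Fin s // i ≠ i₀} = s - 1 := by simp
  rw [h2] at h
  refine le_trans ?_ h
  unfold CC
  rw [← card_filter_prod (α := (Fin s' → B) × ({i : Fin s // i ≠ i₀} → Fin q → A)) (β := A)
    (fun R c => (∀ l, r c (R.1 l)) ∧
    ∀ j : {i : Fin s // i ≠ i₀}, ∃ b, r c b ∧ ∀ a, r (R.2 j a) b)]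
  apply Finset.card_le_card_of_injOn
      (fun u => (u.2, (fun j => if h : ∃ b, r u.2 b ∧ ∀ a, r (u.1.2 j a) b then h.choose else
        Classical.arbitrary B), u.1.1, u.1.2))
  · intro u hu
    simp only [Finset.coe_filter, Finset.mem_univ, true_and, Set.mem_ofPred_eq] at hu ⊢
    refine ⟨?_, hu.1, ?_⟩
    · intro j
      rw [dif_pos (hu.2 j)]
      exact (hu.2 j).choose_spec.1
    · intro j a
      rw [dif_pos (hu.2 j)]
      exact (hu.2 j).choose_spec.2 a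
  · intro u hu u' hu' huu
    simp only [Prod.mk.injEq] at huu
    exact Prod.ext (Prod.ext huu.2.2.1 huu.2.2.2) huu.1

lemma PCY_le [Nonempty B] {s q s' : ℕ} (r : A → B → Prop) (L B₀ β : ℕ) (i₀ : Fin s)
    (θ : ℝ) :
    (Finset.univ.filter (fun z : A × (Fin s → B) × (Fin s' → B) ×
        ({i : Fin s // i ≠ i₀} → Fin q → A) => PC r L i₀ z ∧
          θ ≤ (cnt r L B₀ β i₀ z.2.2.1 z.2.2.2 (z.2.1 i₀) : ℝ))).card ≤
      L ^ (s - 1) * ∑ R : (Fin s' → B) × ({i : Fin s // i ≠ i₀} → Fin q → A),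
        ((CC r i₀ R.1 R.2 ×ˢ YY r L B₀ β i₀ θ R.1 R.2).filter (fun u => r u.1 u.2)).card := by
  have h1 := Finset.card_le_mul_card_image
    (f := fun z : A × (Fin s → B) × (Fin s' → B) × ({i : Fin s // i ≠ i₀} → Fin q → A) =>
      ((z.2.2.1, z.2.2.2), (z.1, z.2.1 i₀)))
    (Finset.univ.filter (fun z : A × (Fin s → B) × (Fin s' → B) ×
        ({i : Fin s // i ≠ i₀} → Fin q → A) => PC r L i₀ z ∧
          θ ≤ (cnt r L B₀ β i₀ z.2.2.1 z.2.2.2 (z.2.1 i₀) : ℝ))) (L ^ (s - 1)) (by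
      intro v hv
      rw [Finset.mem_image] at hv
      obtain ⟨z₀, hz₀, rfl⟩ := hv
      rw [Finset.mem_filter] at hz₀
      have h2 := card_pi_fix_le (I := Fin s) (β := B)
        (fun i b => ∀ h : i ≠ i₀, ∀ a, r ((Fin.cons z₀.1 (z₀.2.2.2 ⟨i, h⟩) : Fin (q + 1) → A) a) b)
        L i₀ (z₀.2.1 i₀) (fun x => x i₀ = z₀.2.1 i₀ ∧ ∀ i (h : i ≠ i₀), ∀ a,
          r ((Fin.cons z₀.1 (z₀.2.2.2 ⟨i, h⟩) : Fin (q + 1) → A) a) (x i))
        (fun x hx => ⟨hx.1, fun i hi h a => hx.2 i h a⟩) (by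
          intro i hi
          refine le_trans (Finset.card_le_card ?_) (hz₀.2.1.2.2.2 ⟨i, hi⟩).le
          intro b hb
          simp only [Finset.mem_filter, Finset.mem_univ, true_and] at hb ⊢
          exact fun a => hb hi a)
      rw [Fintype.card_fin] at h2
      refine le_trans ?_ h2
      apply Finset.card_le_card_of_injOn (fun z => z.2.1)
      · intro z hz
        simp only [Finset.coe_filter, Finset.mem_filter, Finset.mem_univ, true_and,
          Set.mem_ofPred_eq, Prod.mk.injEq] at hz ⊢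
        obtain ⟨⟨hz1, hz2⟩, ⟨hz3, hz4⟩, hz5, hz6⟩ := hz
        refine ⟨hz6, fun i hi a => ?_⟩
        refine Fin.cases ?_ (fun a => ?_) a
        · rw [Fin.cons_zero, ← hz5]; exact hz1.1 i
        · rw [Fin.cons_succ, ← hz4]; exact hz1.2.2.1 ⟨i, hi⟩ a
      · intro z hz z' hz' hzz
        simp only [Finset.coe_filter, Finset.mem_filter, Finset.mem_univ, true_and,
          Set.mem_ofPred_eq, Prod.mk.injEq] at hz hz'
        refine Prod.ext (hz.2.2.1.trans hz'.2.2.1.symm) (Prod.ext hzz (Prod.ext ?_ ?_))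
        · exact hz.2.1.1.trans hz'.2.1.1.symm
        · exact hz.2.1.2.trans hz'.2.1.2.symm)
  refine h1.trans (Nat.mul_le_mul_left _ ?_)
  have h3 : ∑ R : (Fin s' → B) × ({i : Fin s // i ≠ i₀} → Fin q → A),
        ((CC r i₀ R.1 R.2 ×ˢ YY r L B₀ β i₀ θ R.1 R.2).filter (fun u => r u.1 u.2)).card =
      (Finset.univ.filter (fun v : ((Fin s' → B) × ({i : Fin s // i ≠ i₀} → Fin q → A)) × (A × B) =>
        v.2.1 ∈ CC r i₀ v.1.1 v.1.2 ∧ v.2.2 ∈ YY r L B₀ β i₀ θ v.1.1 v.1.2 ∧ r v.2.1 v.2.2)).card := by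
    rw [card_filter_prod (α := (Fin s' → B) × ({i : Fin s // i ≠ i₀} → Fin q → A)) (β := A × B)
      (fun R u => u.1 ∈ CC r i₀ R.1 R.2 ∧ u.2 ∈ YY r L B₀ β i₀ θ R.1 R.2 ∧ r u.1 u.2)]
    apply Finset.sum_congr rfl
    intro R _
    congr 1
    ext u
    simp only [Finset.mem_filter, Finset.mem_product, Finset.mem_univ, true_and]
    tauto
  rw [h3]
  apply Finset.card_le_card
  intro v hv
  rw [Finset.mem_image] at hv
  obtain ⟨z, hz, rfl⟩ := hv
  simp only [Finset.mem_filter, Finset.mem_univ, true_and] at hz ⊢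
  refine ⟨?_, ?_, hz.1.1 i₀⟩
  · simp only [CC, Finset.mem_filter, Finset.mem_univ, true_and]
    exact ⟨hz.1.2.1, fun j => ⟨z.2.1 j.1, hz.1.1 j.1, fun a => hz.1.2.2.1 j a⟩⟩
  · simp only [YY, Finset.mem_filter, Finset.mem_univ, true_and]
    exact hz.2

end Pool.Agent.W715.BC
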