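import Pool.Agent.W715.BC.Pop

set_option autoImplicit false

open Classical

namespace Pool.Agent.W715.BC

variable {A B : Type} [Fintype A] [Fintype B]

/-- root tuples with many extensions, a fixed fraction of which use one vertex as child i -/
def Gd {s q s' : ℕ} (r : A → B → Prop) (L B₀ β : ℕ) (i : Fin s) (w : Fin s' → B)
    (P : Fin s → Fin q → A) : Prop :=
  B₀ ≤ (Ext r L w P).card ∧
    ∃ y, (Ext r L w P).card ≤ β * ((Ext r L w P).filter (fun z => z.2 i = y)).card

noncomputable def ysel [Nonempty B] {s q s' : ℕ} (r : A → B → Prop) (L B₀ β : ℕ) (i : Fin s)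
    (w : Fin s' → B) (P : Fin s → Fin q → A) : B :=
  if h : Gd r L B₀ β i w P then h.2.choose else Classical.arbitrary B

lemma ysel_spec [Nonempty B] {s q s' : ℕ} {r : A → B → Prop} {L B₀ β : ℕ} {i : Fin s}
    {w : Fin s' → B} {P : Fin s → Fin q → A} (h : Gd r L B₀ β i w P) :
    (Ext r L w P).card ≤
      β * ((Ext r L w P).filter (fun z => z.2 i = ysel r L B₀ β i w P)).card := by
  unfold ysel
  rw [dif_pos h]
  exact h.2.choose_spec

/-- embeddings over good root tuples whose child i is the popular one -/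
noncomputable def EE [Nonempty B] {s q s' : ℕ} (r : A → B → Prop) (L B₀ β : ℕ) (i : Fin s) :
    Finset (((Fin s' → B) × (Fin s → Fin q → A)) × (A × (Fin s → B))) :=
  Finset.univ.filter (fun u => Gd r L B₀ β i u.1.1 u.1.2 ∧ Clean r L u.2.1 u.2.2 u.1.1 u.1.2 ∧
    u.2.2 i = ysel r L B₀ β i u.1.1 u.1.2)

lemma sum_ext {s q s' : ℕ} (r : A → B → Prop) (L : ℕ) :
    (Finset.univ.filter (fun z : A × (Fin s → B) × (Fin s' → B) × (Fin s → Fin q → A) =>
        Clean r L z.1 z.2.1 z.2.2.1 z.2.2.2)).card =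
    ∑ R : (Fin s' → B) × (Fin s → Fin q → A), (Ext r L R.1 R.2).card := by
  unfold Ext
  rw [← card_filter_prod (α := (Fin s' → B) × (Fin s → Fin q → A)) (β := A × (Fin s → B))
    (fun R z => Clean r L z.1 z.2 R.1 R.2)]
  apply Finset.card_bij' (fun z _ => ((z.2.2.1, z.2.2.2), (z.1, z.2.1)))
    (fun u _ => (u.2.1, u.2.2, u.1.1, u.1.2))
  all_goals first
    | (intro z _; rfl)
    | (intro z hz; rw [Finset.mem_filter] at hz ⊢; exact ⟨Finset.mem_univ _, hz.2⟩)

/-- some index is popular for a positive proportion -/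
lemma exists_index [Nonempty B] {s q s' t : ℕ} (r : A → B → Prop) (L B₀ : ℕ)
    (ht : 0 < t) (hno : ¬ Blow r s q s' t) (hB : (s + 1) * t * L ^ s < B₀) :
    (Finset.univ.filter (fun z : A × (Fin s → B) × (Fin s' → B) × (Fin s → Fin q → A) =>
        Clean r L z.1 z.2.1 z.2.2.1 z.2.2.2)).card ≤
      B₀ * Fintype.card ((Fin s' → B) × (Fin s → Fin q → A)) +
      ∑ i : Fin s, ((s + 1) * t * s) *
        (EE (q := q) (s' := s') r L B₀ ((s + 1) * t * s) i).card := by
  rw [sum_ext]
  have h1 : ∀ R : (Fin s' → B) × (Fin s → Fin q → A), (Ext r L R.1 R.2).card ≤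
      B₀ + ∑ i : Fin s, (if Gd r L B₀ ((s + 1) * t * s) i R.1 R.2 then
        ((s + 1) * t * s) * ((Ext r L R.1 R.2).filter
          (fun z => z.2 i = ysel r L B₀ ((s + 1) * t * s) i R.1 R.2)).card else 0) := by
    intro R
    by_cases hR : (Ext r L R.1 R.2).card < B₀
    · exact le_trans hR.le (Nat.le_add_right _ _)
    · push Not at hR
      obtain ⟨i, y, hy⟩ := popular r L ht hno R.1 R.2 (lt_of_lt_of_le hB hR)
      have hG : Gd r L B₀ ((s + 1) * t * s) i R.1 R.2 := ⟨hR, y, hy⟩
      have h2 := ysel_spec hG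
      have h3 := Finset.single_le_sum (f := fun i : Fin s =>
        (if Gd r L B₀ ((s + 1) * t * s) i R.1 R.2 then
        ((s + 1) * t * s) * ((Ext r L R.1 R.2).filter
          (fun z => z.2 i = ysel r L B₀ ((s + 1) * t * s) i R.1 R.2)).card else 0))
        (fun _ _ => Nat.zero_le _) (Finset.mem_univ i)
      simp only [hG, if_true] at h3
      calc (Ext r L R.1 R.2).card ≤ _ := h2
        _ ≤ _ := h3
        _ ≤ _ := Nat.le_add_left _ _
  calc ∑ R : (Fin s' → B) × (Fin s → Fin q → A), (Ext r L R.1 R.2).card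
      ≤ ∑ R : (Fin s' → B) × (Fin s → Fin q → A), (B₀ + ∑ i : Fin s,
        (if Gd r L B₀ ((s + 1) * t * s) i R.1 R.2 then
        ((s + 1) * t * s) * ((Ext r L R.1 R.2).filter
          (fun z => z.2 i = ysel r L B₀ ((s + 1) * t * s) i R.1 R.2)).card else 0)) :=
        Finset.sum_le_sum (fun R _ => h1 R)
    _ = B₀ * Fintype.card ((Fin s' → B) × (Fin s → Fin q → A)) + ∑ i : Fin s,
        ∑ R : (Fin s' → B) × (Fin s → Fin q → A),
        (if Gd r L B₀ ((s + 1) * t * s) i R.1 R.2 then
        ((s + 1) * t * s) * ((Ext r L R.1 R.2).filter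
          (fun z => z.2 i = ysel r L B₀ ((s + 1) * t * s) i R.1 R.2)).card else 0) := by
        rw [Finset.sum_add_distrib, Finset.sum_comm]
        congr 1
        rw [Finset.sum_const, smul_eq_mul, mul_comm]
        rfl
    _ ≤ _ := by
        apply Nat.add_le_add_left
        apply Finset.sum_le_sum
        intro i _
        unfold EE
        rw [card_filter_prod (α := (Fin s' → B) × (Fin s → Fin q → A)) (β := A × (Fin s → B))
          (fun R z => Gd r L B₀ ((s + 1) * t * s) i R.1 R.2 ∧ Clean r L z.1 z.2 R.1 R.2 ∧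
            z.2 i = ysel r L B₀ ((s + 1) * t * s) i R.1 R.2), Finset.mul_sum]
        apply Finset.sum_le_sum
        intro R _
        split_ifs with hG
        · apply Nat.mul_le_mul_left
          apply Finset.card_le_card
          intro z hz
          rw [Finset.mem_filter, mem_Ext] at hz
          simp only [Finset.mem_filter, Finset.mem_univ, true_and]
          exact ⟨hG, hz.1, hz.2⟩
        · exact Nat.zero_le _

end Pool.Agent.W715.BC
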